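import Pool.Agent.H934.SF.Corr

/-!
# The definitions in terms of the action of correspondences
-/

open CategoryTheory AlgebraicGeometry Module Matrix

universe u v

namespace Pool.Agent.H934.SF

open Pool.Agent.H914 Pool.Agent.H914.VarClass Pool.Agent.H914.VarClass.Obj
  Pool.Agent.H914.WeilCohomology Pool.Agent.H934.HS Pool.Agent.H934.Lift

variable {k : Type u} [Field k] {𝒱 : VarClass k} {ops : CycleOps 𝒱}
  {W : WeilCohomology.{u, v} ops} {X Y : 𝒱.Obj} {h : X.Cycles}

lemma pairVia_eq (z : (X.prod Y).Cycles) (a : W.H X) (b : W.H Y) :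
    pairVia W z a b = W.tr Y (W.corr (W.cl _ z) a * b) := by
  rw [tr_corr]
  rfl

lemma corr_eq_zero {z : (X.prod Y).Cycles} {a : W.H X} (h0 : ∀ b, pairVia W z a b = 0) :
    W.corr (W.cl _ z) a = 0 := by
  apply W.nondeg
  intro b
  rw [← pairVia_eq, h0]

lemma scalar_corr (hs : ScalarCorrespondences W X) (c : (X.prod X).Cycles)
    (hc : (X.prod X).IsCyc 2 c) : ∃ s : W.K, ∀ a ∈ transPart W X,
      W.corr (W.cl _ c) a = s • a := by
  obtain ⟨s, hs⟩ := hs c hc
  refine ⟨s, fun a ha => ?_⟩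
  rw [← sub_eq_zero]
  apply W.nondeg
  intro b
  rw [sub_mul, map_sub, ← pairVia_eq, hs a ha b, smul_mul_assoc, map_smul, smul_eq_mul]
  exact sub_self _

/-- The elements `b i` generate the primitive part. -/
lemma gram_span {n : ℕ} {G : Matrix (Fin n) (Fin n) ℚ} (hdet : G.det ≠ 0) {g : Fin n → W.H X}
    (hg : ∀ i, IsOrth W X (Eq h) (g i)) (hgG : ∀ i j, W.tr X (g i * g j) = (G i j : W.K))
    (h0 : ∀ a, IsOrth W X (Eq h) a → (∀ i, W.tr X (g i * a) = 0) → a = 0) {a : W.H X}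
    (ha : IsOrth W X (Eq h) a) : ∃ t : Fin n → W.K, a = ∑ i, t i • g i := by
  classical
  set M : Matrix (Fin n) (Fin n) W.K := G.map (Rat.cast : ℚ → W.K) with hM
  have hMdet : M.det ≠ 0 := by
    have h1 : M.det = (G.det : W.K) := (RingHom.map_det (Rat.castHom W.K) G).symm
    rw [h1]
    exact_mod_cast hdet
  have hu : IsUnit M.det := isUnit_iff_ne_zero.2 hMdet
  let w : Fin n → W.K := fun j => W.tr X (g j * a)
  let t : Fin n → W.K := M⁻¹ *ᵥ w
  have ht : M *ᵥ t = w := by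
    rw [Matrix.mulVec_mulVec, Matrix.mul_nonsing_inv _ hu, Matrix.one_mulVec]
  refine ⟨t, ?_⟩
  rw [← sub_eq_zero]
  apply h0
  · refine isOrth_iff.2 ⟨sub_mem ha.1 (Submodule.sum_mem _ fun i _ =>
      Submodule.smul_mem _ _ (hg i).1), fun z hz => ?_⟩
    rw [sub_mul, map_sub, Finset.sum_mul, map_sum, (isOrth_iff.1 ha).2 z hz, zero_sub, neg_eq_zero]
    exact Finset.sum_eq_zero fun i _ => by
      rw [smul_mul_assoc, map_smul, (isOrth_iff.1 (hg i)).2 z hz, smul_zero]
  · intro i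
    rw [mul_sub, map_sub, sub_eq_zero, Finset.mul_sum, map_sum]
    have h1 := congrFun ht i
    rw [Matrix.mulVec, dotProduct] at h1
    change _ = W.tr X (g i * a) at h1
    rw [← h1]
    refine Finset.sum_congr rfl fun j _ => ?_
    rw [mul_smul_comm, map_smul, hgG, smul_eq_mul, hM, Matrix.map_apply, mul_comm]

end Pool.Agent.H934.SF
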