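import Pool.Agent.H934.SF.Defs
import Pool.Agent.H934.HS.Good
import Pool.Agent.H934.HS.Tens

/-!
# Fourfolds fibred over surfaces: the intersection numbers
-/

open CategoryTheory AlgebraicGeometry Module

universe u v

namespace Pool.Agent.H934.SF

open Pool.Agent.H914 Pool.Agent.H914.VarClass Pool.Agent.H914.VarClass.Obj
  Pool.Agent.H914.WeilCohomology Pool.Agent.H934.HS

variable {k : Type u} [Field k] {𝒱 : VarClass k} {ops : CycleOps 𝒱}
  {W : WeilCohomology.{u, v} ops} {P S : 𝒱.Obj}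

lemma gr_eq_zero {X : 𝒱.Obj} {a : W.H X} {i : ℕ} (ha : a ∈ W.gr X i) (hi : 2 * X.dim < i) :
    a = 0 := by
  rw [W.gr_eq_bot X i hi] at ha
  exact (Submodule.mem_bot _).1 ha

lemma qtr_of_push {p : P ⟶ S} {x : W.H P} (hx : x ∈ alg W P 2) {q : ℚ}
    (hq : W.push p x = (q : W.K) • (1 : W.H S)) (c : W.H S) :
    qtr W P (W.map p c * x) = q * qtr W S c := by
  rw [← alg_comm hx, ← qtr_push_mul, hq, smul_mul_assoc, one_mul, ← rat_smul, map_smul,
    smul_eq_mul]

lemma qtr_of_push_zero {p : P ⟶ S} {x : W.H P} (hx : x ∈ alg W P 2)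
    (hq : W.push p x = 0) (c : W.H S) : qtr W P (W.map p c * x) = 0 := by
  rw [← alg_comm hx, ← qtr_push_mul, hq, zero_mul, map_zero]

variable {p : P ⟶ S} {h : S.Cycles} {r m : ℕ} {D : Fin (r + 1) → P.Cycles} {ε : Fin m → P.Cycles}
  {M : Fin (r + 1) → Fin (r + 1) → ℚ}

section

variable (hF : IsSurfaceFibration W p h D ε M)

include hF

lemma β_mem (i) : W.cl P (D i) ∈ alg W P 1 := cl_mem_alg (hF.isCycD i)

lemma γ_mem (j) : W.cl P (ε j) ∈ alg W P 1 := cl_mem_alg (hF.isCycE j)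

lemma η_mem : W.cl S h ∈ alg W S 1 := cl_mem_alg hF.index.isCyc

lemma push_ββ (i j) : W.push p (W.cl P (D i) * W.cl P (D j)) = (M i j : W.K) • (1 : W.H S) := by
  have := (hF.fibre i j).cl
  rwa [W.cl_push, W.cl_mul, cl_smul, W.cl_fund] at this

lemma push_γβ (j i) : W.push p (W.cl P (ε j) * W.cl P (D i)) = 0 := by
  have := (hF.vertD j i).cl
  rwa [W.cl_push, W.cl_mul, map_zero] at this

lemma push_γγ (i j) : W.push p (W.cl P (ε i) * W.cl P (ε j)) = 0 := by
  have := (hF.vert i j).cl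
  rwa [W.cl_push, W.cl_mul, map_zero] at this

lemma η_pos : 0 < qtr W S (W.cl S h * W.cl S h) := by
  have := hF.index.pos_qtr
  rwa [hF.dimS, pow_two] at this

lemma M_symm (i j) : M i j = M j i := by
  have h1 := push_ββ hF i j
  have h2 := push_ββ hF j i
  rw [alg_comm (β_mem hF j)] at h2
  have h3 := h1.symm.trans h2
  have h4 := congrArg (fun x => qtr W S (x * (W.cl S h * W.cl S h))) h3
  simp only [smul_mul_assoc, one_mul, ← rat_smul, map_smul, smul_eq_mul] at h4
  exact mul_right_cancel₀ (η_pos hF).ne' h4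

lemma ββ (c : W.H S) (i j) : qtr W P (W.map p c * (W.cl P (D i) * W.cl P (D j))) =
    M i j * qtr W S c :=
  qtr_of_push (alg_mul (β_mem hF i) (β_mem hF j)) (push_ββ hF i j) c

lemma γβ (c : W.H S) (j i) : qtr W P (W.map p c * (W.cl P (ε j) * W.cl P (D i))) = 0 :=
  qtr_of_push_zero (alg_mul (γ_mem hF j) (β_mem hF i)) (push_γβ hF j i) c

lemma γγ (c : W.H S) (i j) : qtr W P (W.map p c * (W.cl P (ε i) * W.cl P (ε j))) = 0 :=
  qtr_of_push_zero (alg_mul (γ_mem hF i) (γ_mem hF j)) (push_γγ hF i j) c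

/-- Products of more than two divisors of `S` vanish. -/
lemma zero_of_three {a b c : W.H S} (ha : a ∈ alg W S 1) (hb : b ∈ alg W S 1)
    (hc : c ∈ alg W S 1) : a * b * c = 0 :=
  gr_eq_zero (gr_of_alg (alg_mul (alg_mul ha hb) hc)) (by rw [hF.dimS]; norm_num)

lemma zero_of_four {a b : W.H S} (ha : a ∈ alg W S 2) (hb : b ∈ alg W S 1) :
    a * b = 0 :=
  gr_eq_zero (gr_of_alg (alg_mul ha hb)) (by rw [hF.dimS]; norm_num)

lemma zero_of_four' {a b : W.H S} (ha : a ∈ alg W S 2) (hb : b ∈ alg W S 2) :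
    a * b = 0 :=
  gr_eq_zero (gr_of_alg (alg_mul ha hb)) (by rw [hF.dimS]; norm_num)

lemma pull_zero (c : W.H S) : qtr W P (W.map p c) = 0 := by
  have hS := hF.dimS
  have hP := hF.dimP
  refine gr_induction (W.isInternal S) (p := fun c => qtr W P (W.map p c) = 0) ?_ ?_ c
  · intro i c hc
    by_cases hi : i = 8
    · rw [gr_eq_zero hc (by omega), map_zero, map_zero]
    · exact qtr_eq_zero (W.map_mem p hc) (by omega)
  · intro a b ha hb
    rw [map_add, map_add, ha, hb, add_zero]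

end

/-- The classes `∑ p^* a_i · D i`. -/
noncomputable def u1 (hF : IsSurfaceFibration W p h D ε M) :
    (Fin (r + 1) → alg W S 1) →ₗ[ℚ] alg W P 2 where
  toFun a := ∑ i, ⟨W.map p (a i : W.H S) * W.cl P (D i),
    alg_mul (i := 1) (j := 1) (alg_map p (a i).2) (β_mem hF i)⟩
  map_add' a b := by
    rw [← Finset.sum_add_distrib]
    refine Finset.sum_congr rfl fun i _ => Subtype.ext ?_
    change W.map p ((a i : W.H S) + b i) * W.cl P (D i) =
      W.map p (a i : W.H S) * W.cl P (D i) + W.map p (b i : W.H S) * W.cl P (D i)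
    rw [map_add, add_mul]
  map_smul' c a := by
    rw [RingHom.id_apply, Finset.smul_sum]
    refine Finset.sum_congr rfl fun i _ => Subtype.ext ?_
    change W.map p (c • (a i : W.H S)) * W.cl P (D i) = c • (W.map p (a i : W.H S) * W.cl P (D i))
    rw [rat_smul, rat_smul, map_smul, smul_mul_assoc]

/-- The classes `∑ c_j ε j · p^* h + t p^* h^2`. -/
noncomputable def u2 (hF : IsSurfaceFibration W p h D ε M) :
    ((Fin m → ℚ) × ℚ) →ₗ[ℚ] alg W P 2 where
  toFun c := ∑ j, c.1 j • (⟨W.map p (W.cl S h) * W.cl P (ε j),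
    alg_mul (i := 1) (j := 1) (alg_map p (η_mem hF)) (γ_mem hF j)⟩ : alg W P 2) +
      c.2 • (⟨W.map p (W.cl S h * W.cl S h), alg_map p (alg_mul (η_mem hF) (η_mem hF))⟩ :
        alg W P 2)
  map_add' a b := by
    simp only [Prod.fst_add, Prod.snd_add, Pi.add_apply, add_smul, Finset.sum_add_distrib]
    abel
  map_smul' c a := by
    simp only [Prod.smul_fst, Prod.smul_snd, Pi.smul_apply, smul_eq_mul, mul_smul,
      RingHom.id_apply, smul_add, Finset.smul_sum]

lemma q2_u1 (hF : IsSurfaceFibration W p h D ε M) (z : alg W P 2)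
    (a : Fin (r + 1) → alg W S 1) : q2 W P z (u1 hF a) =
      ∑ i, qtr W P ((z : W.H P) * (W.map p (a i : W.H S) * W.cl P (D i))) := by
  change q2 W P z (∑ i, _) = _
  rw [map_sum]
  rfl

lemma q2_u2 (hF : IsSurfaceFibration W p h D ε M) (z : alg W P 2) (c : (Fin m → ℚ) × ℚ) :
    q2 W P z (u2 hF c) = ∑ j, c.1 j *
      qtr W P ((z : W.H P) * (W.map p (W.cl S h) * W.cl P (ε j))) +
        c.2 * qtr W P ((z : W.H P) * W.map p (W.cl S h * W.cl S h)) := by
  change q2 W P z (∑ j, _ + _) = _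
  rw [map_add, map_sum, map_smul]
  congr 1
  exact Finset.sum_congr rfl fun j _ => by rw [map_smul]; rfl

lemma swap_mul {a b c d : W.H P} {i j : ℕ} (hb : b ∈ alg W P i) :
    a * b * (c * d) = a * c * (b * d) := by
  rw [mul_assoc, ← mul_assoc b, alg_comm hb c, mul_assoc, ← mul_assoc]

lemma q2_u1_u1 (hF : IsSurfaceFibration W p h D ε M) (a b : Fin (r + 1) → alg W S 1) :
    q2 W P (u1 hF a) (u1 hF b) =
      ∑ i, ∑ j, M i j * qtr W S ((a i : W.H S) * (b j : W.H S)) := by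
  rw [q2_symm, q2_u1]
  refine Finset.sum_congr rfl fun i _ => ?_
  have e1 : qtr W P (((u1 hF b : alg W P 2) : W.H P) * (W.map p (a i : W.H S) * W.cl P (D i))) =
      q2 W P ⟨W.map p (a i : W.H S) * W.cl P (D i),
        alg_mul (i := 1) (j := 1) (alg_map p (a i).2) (β_mem hF i)⟩ (u1 hF b) := by
    rw [q2_symm]; rfl
  rw [e1, q2_u1]
  refine Finset.sum_congr rfl fun j _ => ?_
  change qtr W P (W.map p (a i : W.H S) * W.cl P (D i) *
    (W.map p (b j : W.H S) * W.cl P (D j))) = _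
  rw [swap_mul (i := 1) (j := 1) (β_mem hF i), ← map_mul, ββ hF]

lemma q2_u1_u2 (hF : IsSurfaceFibration W p h D ε M) (a : Fin (r + 1) → alg W S 1)
    (c : (Fin m → ℚ) × ℚ) : q2 W P (u1 hF a) (u2 hF c) = 0 := by
  rw [q2_symm, q2_u1]
  refine Finset.sum_eq_zero fun i _ => ?_
  have e1 : qtr W P (((u2 hF c : alg W P 2) : W.H P) * (W.map p (a i : W.H S) * W.cl P (D i))) =
      q2 W P ⟨W.map p (a i : W.H S) * W.cl P (D i),
        alg_mul (i := 1) (j := 1) (alg_map p (a i).2) (β_mem hF i)⟩ (u2 hF c) := by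
    rw [q2_symm]; rfl
  rw [e1, q2_u2]
  have e2 : ∀ j, qtr W P (W.map p (a i : W.H S) * W.cl P (D i) *
      (W.map p (W.cl S h) * W.cl P (ε j))) = 0 := fun j => by
    rw [swap_mul (i := 1) (j := 1) (β_mem hF i), ← map_mul, alg_comm (β_mem hF i), γβ hF]
  have e3 : W.map p (a i : W.H S) * W.cl P (D i) * W.map p (W.cl S h * W.cl S h) = 0 := by
    rw [mul_assoc, alg_comm (β_mem hF i), ← mul_assoc, ← map_mul,
      alg_comm (a i).2, zero_of_three hF (η_mem hF) (η_mem hF) (a i).2, map_zero, zero_mul]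
  change ∑ j, c.1 j * qtr W P (W.map p (a i : W.H S) * W.cl P (D i) *
      (W.map p (W.cl S h) * W.cl P (ε j))) + c.2 * qtr W P (W.map p (a i : W.H S) *
        W.cl P (D i) * W.map p (W.cl S h * W.cl S h)) = 0
  rw [e3, map_zero, mul_zero, add_zero]
  exact Finset.sum_eq_zero fun j _ => by rw [e2, mul_zero]

lemma q2_u2_u2 (hF : IsSurfaceFibration W p h D ε M) (c c' : (Fin m → ℚ) × ℚ) :
    q2 W P (u2 hF c) (u2 hF c') = 0 := by
  have e1 : ∀ j, q2 W P (u2 hF c) ⟨W.map p (W.cl S h) * W.cl P (ε j),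
      alg_mul (i := 1) (j := 1) (alg_map p (η_mem hF)) (γ_mem hF j)⟩ = 0 := by
    intro j
    rw [q2_symm, q2_u2]
    have e2 : ∀ i, qtr W P (W.map p (W.cl S h) * W.cl P (ε j) *
        (W.map p (W.cl S h) * W.cl P (ε i))) = 0 := fun i => by
      rw [swap_mul (i := 1) (j := 1) (γ_mem hF j), ← map_mul, γγ hF]
    have e3 : W.map p (W.cl S h) * W.cl P (ε j) * W.map p (W.cl S h * W.cl S h) = 0 := by
      rw [mul_assoc, alg_comm (γ_mem hF j), ← mul_assoc, ← map_mul, ← mul_assoc,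
        zero_of_three hF (η_mem hF) (η_mem hF) (η_mem hF), map_zero, zero_mul]
    change ∑ i, c.1 i * qtr W P (W.map p (W.cl S h) * W.cl P (ε j) *
        (W.map p (W.cl S h) * W.cl P (ε i))) + c.2 * qtr W P (W.map p (W.cl S h) *
          W.cl P (ε j) * W.map p (W.cl S h * W.cl S h)) = 0
    rw [e3, map_zero, mul_zero, add_zero]
    exact Finset.sum_eq_zero fun i _ => by rw [e2, mul_zero]
  have e4 : q2 W P (u2 hF c) ⟨W.map p (W.cl S h * W.cl S h),
      alg_map p (alg_mul (η_mem hF) (η_mem hF))⟩ = 0 := by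
    rw [q2_symm, q2_u2]
    have e2 : ∀ i, qtr W P (W.map p (W.cl S h * W.cl S h) *
        (W.map p (W.cl S h) * W.cl P (ε i))) = 0 := fun i => by
      rw [← mul_assoc, ← map_mul, zero_of_three hF (η_mem hF) (η_mem hF) (η_mem hF), map_zero,
        zero_mul, map_zero]
    have e3 : W.map p (W.cl S h * W.cl S h) * W.map p (W.cl S h * W.cl S h) = 0 := by
      rw [← map_mul, ← mul_assoc, zero_of_three hF (η_mem hF) (η_mem hF) (η_mem hF), zero_mul,
        map_zero]
    change ∑ i, c.1 i * qtr W P (W.map p (W.cl S h * W.cl S h) *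
        (W.map p (W.cl S h) * W.cl P (ε i))) + c.2 * qtr W P (W.map p (W.cl S h * W.cl S h) *
          W.map p (W.cl S h * W.cl S h)) = 0
    rw [e3, map_zero, mul_zero, add_zero]
    exact Finset.sum_eq_zero fun i _ => by rw [e2, mul_zero]
  change q2 W P (u2 hF c) (∑ j, _ + _) = 0
  rw [map_add, map_sum, map_smul, e4, smul_zero, add_zero]
  exact Finset.sum_eq_zero fun j _ => by rw [map_smul, e1, smul_zero]

end Pool.Agent.H934.SF
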