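import Pool.Agent.H934.SF.Surf
import Pool.Agent.H914R2.Cyc
import Pool.Agent.H914R2.GBasic

/-!
# Transcendental correspondences between two surfaces
-/

open CategoryTheory AlgebraicGeometry Module

universe u v

namespace Pool.Agent.H934.SF

open Pool.Agent.H914 Pool.Agent.H914.VarClass Pool.Agent.H914.VarClass.Obj
  Pool.Agent.H914.WeilCohomology Pool.Agent.H934.HS Pool.Agent.H934.Lift

variable {k : Type u} [Field k] {𝒱 : VarClass k} {ops : CycleOps 𝒱}

/-- A transcendental correspondence. -/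
structure Ctx (W : WeilCohomology.{u, v} ops) {X Y : 𝒱.Obj} (h : X.Cycles) (h' : Y.Cycles)
    {a b : ℕ} (d : Fin (a + 1) → X.Cycles) (e : Fin (b + 1) → Y.Cycles)
    (z : (X.prod Y).Cycles) : Prop where
  dimX : X.dim = 2
  dimY : Y.dim = 2
  iX : HodgeIndex W X h
  iY : HodgeIndex W Y h'
  nX : NSBasis ops X h d
  nY : NSBasis ops Y h' e
  hz : (X.prod Y).IsCyc 2 z
  fibre : ∀ t, Y.IsCyc 2 t → inum ops z (ops.pull (snd X Y) t) = 0
  divisor : ∀ t i, Y.IsCyc 1 t →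
    inum ops z (ops.mul (ops.pull (snd X Y) t) (ops.pull (fst X Y) (d i))) = 0
  square : inum ops z (ops.mul (ops.pull (fst X Y) (d 0)) (ops.pull (fst X Y) (d 0))) = 0
  odd : ∀ i, Odd i → ∀ x ∈ W.gr X i, W.corr (W.cl _ z) x = 0

variable {W : WeilCohomology.{u, v} ops} {X Y : 𝒱.Obj} {h : X.Cycles} {h' : Y.Cycles}
    {a b : ℕ} {d : Fin (a + 1) → X.Cycles} {e : Fin (b + 1) → Y.Cycles}
    {z : (X.prod Y).Cycles}

/-- The action of a correspondence of codimension two between surfaces preserves degrees. -/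
lemma corr_gr (hX : X.dim = 2) (hY : Y.dim = 2) (hz : (X.prod Y).IsCyc 2 z) {i : ℕ} {x : W.H X}
    (hx : x ∈ W.gr X i) : W.corr (W.cl _ z) x ∈ W.gr Y i := by
  have h1 := W.push_mem (snd X Y) (W.mul_mem (W.cl_mem hz) (W.map_mem (fst X Y) hx))
  rw [dim_prod, hX, hY] at h1
  have h2 : ((2 * 2 + i : ℕ) : ℤ) + 2 * (((2 : ℕ) : ℤ) - ((2 + 2 : ℕ) : ℤ)) = (i : ℤ) := by
    push_cast; ring
  rw [h2, grZ_natCast] at h1
  exact h1

lemma tr_corr (x : W.H X) (y : W.H Y) : W.tr Y (W.corr (W.cl _ z) x * y) =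
    W.tr (X.prod Y) (W.cl _ z * (W.map (fst X Y) x * W.map (snd X Y) y)) := by
  rw [corr_apply, W.tr_push, mul_assoc]

/-- The action preserves algebraic classes. -/
lemma corr_alg1 (hX : X.dim = 2) (hY : Y.dim = 2) (hz : (X.prod Y).IsCyc 2 z) {j : ℕ} {x : W.H X}
    (hx : x ∈ alg W X j) : W.corr (W.cl _ z) x ∈ alg W Y j := by
  rw [corr_apply]
  exact alg_push (snd X Y) (alg_mul (cl_mem_alg hz) (alg_map (fst X Y) hx))
    (by rw [dim_prod, hX, hY]; omega)

/-- Intersection numbers on the product and traces. -/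
lemma tr_inum (hX : X.dim = 2) (hY : Y.dim = 2) (hz : (X.prod Y).IsCyc 2 z)
    {w : (X.prod Y).Cycles} (hw : (X.prod Y).IsCyc 2 w) :
    W.tr (X.prod Y) (W.cl _ z * W.cl _ w) = (inum ops z w : W.K) := by
  rw [inum_eq (W := W) hz hw (by rw [dim_prod, hX, hY]), cast_qtr]
  rw [dim_prod, hX, hY]
  exact alg_mul (i := 2) (j := 2) (cl_mem_alg hz) (cl_mem_alg hw)

/-- The transpose. -/
noncomputable def tp (ops : CycleOps 𝒱) {X Y : 𝒱.Obj} (z : (X.prod Y).Cycles) :
    (Y.prod X).Cycles := ops.pull (swap Y X) z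

lemma tp_mem (hz : (X.prod Y).IsCyc 2 z) : (Y.prod X).IsCyc 2 (tp ops z) := ops.pull_mem _ hz

lemma adj (hz : (X.prod Y).IsCyc 2 z) (x : W.H X) (y : W.H Y) :
    W.tr Y (W.corr (W.cl _ z) x * y) = W.tr X (x * W.corr (W.cl _ (tp ops z)) y) := by
  rw [tp, W.cl_pull]
  exact tr_corr_swap (W.cl_mem hz) x y

/-- The action preserves the transcendental parts. -/
lemma corr_trans (hX : X.dim = 2) (hY : Y.dim = 2) (hz : (X.prod Y).IsCyc 2 z) {x : W.H X}
    (hx : x ∈ transPart W X) : W.corr (W.cl _ z) x ∈ transPart W Y := by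
  refine ⟨corr_gr hX hY hz hx.1, fun w hw => ?_⟩
  rw [adj hz]
  obtain ⟨w', hw', hww⟩ := corr_alg1 (W := W) hY hX (tp_mem hz) (cl_mem_alg (W := W) hw)
  rw [← hww]
  exact hx.2 w' hw'

/-- The adjoint on the other side. -/
lemma adj' (hz : (X.prod Y).IsCyc 2 z) {x : W.H X} {y : W.H Y} (hX : X.dim = 2) (hY : Y.dim = 2)
    (hx : x ∈ W.gr X 2) (hy : y ∈ W.gr Y 2) :
    W.tr X (W.corr (W.cl _ (tp ops z)) y * x) = W.tr Y (y * W.corr (W.cl _ z) x) := by
  rw [comm2 (corr_gr hY hX (tp_mem hz) hy), ← adj hz, comm2 (corr_gr hX hY hz hx)]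

lemma corr_trans' (hX : X.dim = 2) (hY : Y.dim = 2) (hz : (X.prod Y).IsCyc 2 z) {y : W.H Y}
    (hy : y ∈ transPart W Y) : W.corr (W.cl _ (tp ops z)) y ∈ transPart W X := by
  refine ⟨corr_gr hY hX (tp_mem hz) hy.1, fun w hw => ?_⟩
  rw [adj' hz hX hY (gr_of_alg (cl_mem_alg hw)) hy.1]
  obtain ⟨w', hw', hww⟩ := corr_alg1 (W := W) hX hY hz (cl_mem_alg (W := W) hw)
  rw [← hww]
  exact hy.2 w' hw'

section

variable (hC : Ctx W h h' d e z)

include hC

lemma Ctx.one : W.corr (W.cl _ z) 1 = 0 := by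
  have h1 := corr_gr (W := W) hC.dimX hC.dimY hC.hz (W.one_mem X)
  rw [W.gr_zero, Submodule.mem_span_singleton] at h1
  obtain ⟨c, hc⟩ := h1
  have h2 : Y.IsCyc 2 (ops.mul h' h') := ops.mul_mem hC.iY.isCyc hC.iY.isCyc
  have h3 : W.tr Y (W.corr (W.cl _ z) 1 * W.cl Y (ops.mul h' h')) = 0 := by
    rw [tr_corr, map_one, one_mul, ← W.cl_pull, tr_inum hC.dimX hC.dimY hC.hz
      (ops.pull_mem _ h2), hC.fibre _ h2, Rat.cast_zero]
  rw [← hc, smul_mul_assoc, one_mul, map_smul, W.cl_mul, tr_div hC.dimY hC.iY.isCyc hC.iY.isCyc,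
    smul_eq_mul] at h3
  have h4 : (inum ops h' h' : W.K) ≠ 0 := by exact_mod_cast hC.nY.pos.ne'
  rw [← hc, (mul_eq_zero.1 h3).resolve_right h4, zero_smul]

lemma Ctx.four {x : W.H X} (hx : x ∈ W.gr X 4) : W.corr (W.cl _ z) x = 0 := by
  have hne : (inum ops h h : W.K) ≠ 0 := by exact_mod_cast hC.nX.pos.ne'
  have h0 : W.tr X (W.cl X h * W.cl X h) = (inum ops h h : W.K) :=
    tr_div hC.dimX hC.iX.isCyc hC.iX.isCyc
  have hx1 : x = (W.tr X x / (inum ops h h : W.K)) • (W.cl X h * W.cl X h) := by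
    rw [← sub_eq_zero]
    apply eq_zero_of_top
    · rw [hC.dimX]
      refine sub_mem hx (Submodule.smul_mem _ _ ?_)
      exact W.mul_mem (i := 2) (j := 2) (W.cl_mem hC.iX.isCyc) (W.cl_mem hC.iX.isCyc)
    · rw [map_sub, map_smul, h0, smul_eq_mul, div_mul_cancel₀ _ hne, sub_self]
  have h1 : W.corr (W.cl _ z) (W.cl X h * W.cl X h) = 0 := by
    apply eq_zero_of_top
    · rw [hC.dimY]
      exact corr_gr hC.dimX hC.dimY hC.hz
        (W.mul_mem (i := 2) (j := 2) (W.cl_mem hC.iX.isCyc) (W.cl_mem hC.iX.isCyc))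
    · have h2 := tr_corr (W := W) (z := z) (W.cl X h * W.cl X h) 1
      rw [mul_one, map_one, mul_one, map_mul (W.map (fst X Y)), ← W.cl_pull,
        ← W.cl_mul (ops.pull (fst X Y) h)] at h2
      rw [h2, tr_inum hC.dimX hC.dimY hC.hz (ops.mul_mem (ops.pull_mem _ hC.iX.isCyc)
        (ops.pull_mem _ hC.iX.isCyc)), ← hC.nX.zero, hC.square, Rat.cast_zero]
  rw [hx1, map_smul, h1, smul_zero]

lemma Ctx.div (i : Fin (a + 1)) : W.corr (W.cl _ z) (W.cl X (d i)) = 0 := by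
  have h1 : W.cl X (d i) ∈ alg W X 1 := cl_mem_alg (hC.nX.isCyc i)
  apply nondeg' hC.iY hC.dimY (corr_alg1 hC.dimX hC.dimY hC.hz h1)
  rintro _ ⟨w, hw, rfl⟩
  have h2 : W.tr Y (W.corr (W.cl _ z) (W.cl X (d i)) * W.cl Y w) = 0 := by
    rw [tr_corr, ← W.cl_pull, ← W.cl_pull, ← W.cl_mul, tr_inum hC.dimX hC.dimY hC.hz
      (ops.mul_mem (ops.pull_mem _ (hC.nX.isCyc i)) (ops.pull_mem _ hw))]
    have h3 : inum ops z (ops.mul (ops.pull (fst X Y) (d i)) (ops.pull (snd X Y) w)) =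
        inum ops z (ops.mul (ops.pull (snd X Y) w) (ops.pull (fst X Y) (d i))) := by
      rw [inum_eq (W := W) hC.hz (ops.mul_mem (ops.pull_mem _ (hC.nX.isCyc i))
        (ops.pull_mem _ hw)) (by rw [dim_prod, hC.dimX, hC.dimY]),
        inum_eq (W := W) hC.hz (ops.mul_mem (ops.pull_mem _ hw)
          (ops.pull_mem _ (hC.nX.isCyc i))) (by rw [dim_prod, hC.dimX, hC.dimY]),
        W.cl_mul, W.cl_mul, alg_comm (cl_mem_alg (ops.pull_mem _ (hC.nX.isCyc i)))]
    rw [h3, hC.divisor w i hw, Rat.cast_zero]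
  have h5 : W.corr (W.cl _ z) (W.cl X (d i)) * W.cl Y w ∈ alg W Y Y.dim := by
    rw [hC.dimY]
    exact alg_mul (i := 1) (j := 1) (corr_alg1 hC.dimX hC.dimY hC.hz h1) (cl_mem_alg hw)
  have h6 := cast_qtr h5
  rw [h2] at h6
  exact_mod_cast h6

/-- The class of `z` in terms of an orthogonal basis of the transcendental part. -/
lemma Ctx.expand {r : ℕ} {f : Fin r → W.H X} (hf : ∀ i, f i ∈ transPart W X)
    (hfs : ∀ x ∈ transPart W X, ∃ t : Fin r → W.K, x = ∑ i, t i • f i)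
    (hff : ∀ i, W.tr X (f i * f i) ≠ 0) (hfo : ∀ i j, i ≠ j → W.tr X (f i * f j) = 0) :
    W.cl _ z = ∑ j, (W.tr X (f j * f j))⁻¹ •
      (W.map (fst X Y) (f j) * W.map (snd X Y) (W.corr (W.cl _ z) (f j))) := by
  have key : ∀ x : W.H X, W.corr (∑ j, (W.tr X (f j * f j))⁻¹ •
      (W.map (fst X Y) (f j) * W.map (snd X Y) (W.corr (W.cl _ z) (f j)))) x =
        ∑ j, ((W.tr X (f j * f j))⁻¹ * W.tr X (f j * x)) • W.corr (W.cl _ z) (f j) := by
    intro x
    rw [corr_apply, Finset.sum_mul, map_sum]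
    refine Finset.sum_congr rfl fun j _ => ?_
    have hTj : W.map (snd X Y) (W.corr (W.cl _ z) (f j)) ∈ W.gr (X.prod Y) (2 * 1) :=
      W.map_mem _ (corr_gr hC.dimX hC.dimY hC.hz (hf j).1)
    rw [smul_mul_assoc, map_smul, mul_assoc, W.even_comm hTj, ← mul_assoc, ← map_mul, push_snd,
      smul_smul]
  rw [← sub_eq_zero]
  apply corr_inj
  apply gr_ext (W.isInternal X)
  intro i x hx
  rw [LinearMap.zero_apply]
  have e1 : W.corr (W.cl _ z - ∑ j, (W.tr X (f j * f j))⁻¹ •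
      (W.map (fst X Y) (f j) * W.map (snd X Y) (W.corr (W.cl _ z) (f j)))) x =
      W.corr (W.cl _ z) x - ∑ j, ((W.tr X (f j * f j))⁻¹ * W.tr X (f j * x)) •
        W.corr (W.cl _ z) (f j) := by
    rw [← key x, corr_apply, corr_apply, corr_apply, sub_mul, map_sub]
  rw [e1]
  by_cases hi2 : i = 2
  · subst hi2
    obtain ⟨c, t, ht, hxt, -⟩ := hC.nX.decomp hC.iX hC.dimX hx
    obtain ⟨s, hs⟩ := hfs t ht
    have h1 : W.corr (W.cl _ z) x = W.corr (W.cl _ z) t := by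
      rw [hxt, map_add, map_sum, Finset.sum_eq_zero fun i _ => by
        rw [map_smul, hC.div, smul_zero], zero_add]
    have h2 : ∀ j, (W.tr X (f j * f j))⁻¹ * W.tr X (f j * x) = s j := by
      intro j
      rw [hxt, mul_add, map_add, Finset.mul_sum, map_sum, Finset.sum_eq_zero fun i _ => by
        rw [mul_smul_comm, map_smul, (hf j).2 _ (hC.nX.isCyc i), smul_zero], zero_add, hs,
        Finset.mul_sum, map_sum, Finset.sum_eq_single j]
      · rw [mul_smul_comm, map_smul, smul_eq_mul, mul_comm (s j), inv_mul_cancel_left₀ (hff j)]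
      · intro k _ hk
        rw [mul_smul_comm, map_smul, hfo j k (Ne.symm hk), smul_zero]
      · intro hj; exact absurd (Finset.mem_univ j) hj
    rw [h1, hs, map_sum, sub_eq_zero]
    exact Finset.sum_congr rfl fun j _ => by rw [h2, map_smul]
  · have h1 : W.corr (W.cl _ z) x = 0 := by
      rcases Nat.even_or_odd i with hev | hod
      · by_cases hi0 : i = 0
        · subst hi0
          rw [W.gr_zero, Submodule.mem_span_singleton] at hx
          obtain ⟨c, rfl⟩ := hx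
          rw [map_smul, hC.one, smul_zero]
        · by_cases hi4 : i = 4
          · subst hi4
            exact hC.four hx
          · have : 2 * X.dim < i := by
              rw [hC.dimX]
              obtain ⟨m, hm⟩ := hev
              omega
            rw [gr_eq_zero hx this, map_zero]
      · exact hC.odd i hod x hx
    rw [h1, zero_sub, neg_eq_zero]
    refine Finset.sum_eq_zero fun j _ => ?_
    rw [W.tr_eq_zero (W.mul_mem (hf j).1 hx) (by rw [hC.dimX]; omega), mul_zero, zero_smul]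

/-- **The self-intersection number.** -/
lemma Ctx.selfint {s : W.K}
    (hs : ∀ x ∈ transPart W X, W.corr (W.cl _ (tp ops z)) (W.corr (W.cl _ z) x) = s • x) :
    (inum ops z z : W.K) = (finrank W.K (transPart W X) : W.K) * s := by
  obtain ⟨f, hf, hfs, hff, hfo⟩ := hC.nX.exists_trans hC.iX hC.dimX
  have h1 := hC.expand hf hfs hff hfo
  rw [← tr_inum hC.dimX hC.dimY hC.hz hC.hz]
  have h2 : W.tr _ (W.cl _ z * W.cl _ z) = ∑ j, (W.tr X (f j * f j))⁻¹ *
      W.tr Y (W.corr (W.cl _ z) (f j) * W.corr (W.cl _ z) (f j)) := by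
    have h1' : W.tr _ (W.cl _ z * W.cl _ z) = W.tr _ ((∑ j, (W.tr X (f j * f j))⁻¹ •
      (W.map (fst X Y) (f j) * W.map (snd X Y) (W.corr (W.cl _ z) (f j)))) * W.cl _ z) :=
      congrArg (fun t => W.tr _ (t * W.cl _ z)) h1
    rw [h1', Finset.sum_mul, map_sum]
    refine Finset.sum_congr rfl fun j _ => ?_
    rw [smul_mul_assoc, map_smul, smul_eq_mul, tr_corr]
    congr 2
    exact (W.even_comm (W.cl_mem hC.hz) _).symm
  rw [h2]
  have h3 : ∀ j, (W.tr X (f j * f j))⁻¹ *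
      W.tr Y (W.corr (W.cl _ z) (f j) * W.corr (W.cl _ z) (f j)) = s := by
    intro j
    rw [adj hC.hz, hs _ (hf j), mul_smul_comm, map_smul, smul_eq_mul, mul_comm s,
      inv_mul_cancel_left₀ (hff j)]
  simp only [h3, Finset.sum_const, Finset.card_univ, Fintype.card_fin, nsmul_eq_mul]

end

end Pool.Agent.H934.SF
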