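import Pool.Agent.H934.HS.Defs

/-!
# Fourfolds fibred over surfaces: definitions
-/

open CategoryTheory AlgebraicGeometry

universe u v

namespace Pool.Agent.H934.SF

open Pool.Agent.H914 Pool.Agent.H914.VarClass Pool.Agent.H914.VarClass.Obj
  Pool.Agent.H914.WeilCohomology Pool.Agent.H934.HS

variable {k : Type u} [Field k] {𝒱 : VarClass k} {ops : CycleOps 𝒱}

/-- **Fourfolds fibred over surfaces.** The morphism `p : P ⟶ S` goes from a fourfold to a surface, and
`h` is a divisor on `S` for which the Hodge index theorem holds. In terms of cycles: the divisors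
`D 0, …, D r` on `P` have the intersection numbers `M i j` on the fibres of `p` (`fibre`); `D 0` has
positive self-intersection on the fibres, the other ones are orthogonal to it, and their intersection
matrix is negative definite (`pos`, `sep`, `neg`; the Hodge index theorem for the fibres). The divisors
`ε j` are numerically trivial on the general fibre (`vert`, `vertD`: for example they are components of
reducible fibres, or they come from sections of the relative Picard variety), and on the surfaces
`D 0 · p^* h` the intersection matrix of the `ε j` is negative definite (`negN`, by the Hodge index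
theorem). Nothing is assumed about the cycles of codimension two on `P`. -/
structure IsSurfaceFibration (W : WeilCohomology.{u, v} ops) {P S : 𝒱.Obj} (p : P ⟶ S)
    (h : S.Cycles) {r m : ℕ} (D : Fin (r + 1) → P.Cycles) (ε : Fin m → P.Cycles)
    (M : Fin (r + 1) → Fin (r + 1) → ℚ) : Prop where
  dimP : P.dim = 4
  dimS : S.dim = 2
  index : HodgeIndex W S h
  isCycD : ∀ i, P.IsCyc 1 (D i)
  isCycE : ∀ j, P.IsCyc 1 (ε j)
  fibre : ∀ i j, HomEq W S (ops.push p (ops.mul (D i) (D j))) (M i j • S.V.fundCycle)
  pos : 0 < M 0 0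
  sep : ∀ i : Fin r, M 0 i.succ = 0
  neg : ∀ c : Fin r → ℚ, c ≠ 0 → ∑ i, ∑ j, c i * c j * M i.succ j.succ < 0
  vertD : ∀ j i, HomEq W S (ops.push p (ops.mul (ε j) (D i))) 0
  vert : ∀ i j, HomEq W S (ops.push p (ops.mul (ε i) (ε j))) 0
  negN : ∀ c : Fin m → ℚ, c ≠ 0 → ∑ i, ∑ j, c i * c j *
    inum ops (ops.mul (ε i) (ε j)) (ops.mul (D 0) (ops.pull p h)) < 0

/-- The cycle `z` of codimension two on `P` is transcendental relative to `p`: its intersection numbers
with the fibres `p^* b`, with the cycles `p^* a · D i`, with `D 0 · D 0`, and with the cycles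
`ε j · p^* h` and `ε j · D 0` vanish. -/
structure IsTranscendental (ops : CycleOps 𝒱) {P S : 𝒱.Obj} (p : P ⟶ S) (h : S.Cycles) {r m : ℕ}
    (D : Fin (r + 1) → P.Cycles) (ε : Fin m → P.Cycles) (z : P.Cycles) : Prop where
  isCyc : P.IsCyc 2 z
  fibre : ∀ b, S.IsCyc 2 b → inum ops z (ops.pull p b) = 0
  divisor : ∀ a i, S.IsCyc 1 a → inum ops z (ops.mul (ops.pull p a) (D i)) = 0
  square : inum ops z (ops.mul (D 0) (D 0)) = 0
  vert : ∀ j, inum ops z (ops.mul (ε j) (ops.pull p h)) = 0
  vertD : ∀ j, inum ops z (ops.mul (ε j) (D 0)) = 0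

/-- The fourfold `P` has a fibration over a surface such that the relative transcendental cycles of
codimension two have nonnegative squares. -/
def IsPositivelyFibred (W : WeilCohomology.{u, v} ops) (P : 𝒱.Obj) : Prop :=
  ∃ (S : 𝒱.Obj) (p : P ⟶ S) (h : S.Cycles) (r m : ℕ) (D : Fin (r + 1) → P.Cycles)
    (ε : Fin m → P.Cycles) (M : Fin (r + 1) → Fin (r + 1) → ℚ),
    IsSurfaceFibration W p h D ε M ∧
      ∀ z, IsTranscendental ops p h D ε z → 0 ≤ inum ops z z

end Pool.Agent.H934.SF
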