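import Pool.Agent.H934.SF.Main

/-!
# Fourfolds fibred over surfaces: the Hodge type conjecture
-/

open CategoryTheory AlgebraicGeometry Module

universe u v

namespace Pool.Agent.H934.SF

open Pool.Agent.H914 Pool.Agent.H914.VarClass Pool.Agent.H914.VarClass.Obj
  Pool.Agent.H914.WeilCohomology Pool.Agent.H934.HS

variable {k : Type u} [Field k] {𝒱 : VarClass k} {ops : CycleOps 𝒱}
  {W : WeilCohomology.{u, v} ops} {P S : 𝒱.Obj}
  {p : P ⟶ S} {h : S.Cycles} {r m : ℕ} {D : Fin (r + 1) → P.Cycles} {ε : Fin m → P.Cycles}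
  {M : Fin (r + 1) → Fin (r + 1) → ℚ}

/-- On divisors of `S` orthogonal to `h` the intersection form is negative semidefinite. -/
lemma nonpos_of_orth (hF : IsSurfaceFibration W p h D ε M) (w : alg W S 1)
    (hw : qtr W S ((w : W.H S) * W.cl S h) = 0) : qtr W S ((w : W.H S) * w) ≤ 0 := by
  have h2 := hF.index.lorentz (by rw [hF.dimS]) w.2
  rw [hF.dimS] at h2
  simp only [Nat.sub_self, pow_zero, one_mul, Nat.add_one_sub_one, pow_one] at h2
  rw [← alg_comm w.2 (W.cl S h), hw] at h2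
  have h3 := η_pos hF
  rw [pow_two] at h2
  nlinarith

/-- The main term is nonnegative. -/
lemma main_nonneg (hF : IsSurfaceFibration W p h D ε M) (a : Fin (r + 1) → alg W S 1)
    (h0 : 0 ≤ qtr W S ((a 0 : W.H S) * (a 0 : W.H S)))
    (h1 : ∀ i : Fin r, qtr W S ((a i.succ : W.H S) * W.cl S h) = 0) :
    0 ≤ q2 W P (u1 hF a) (u1 hF a) := by
  rw [q2_u1_u1, Fin.sum_univ_succ]
  have e1 : ∑ j, M 0 j * qtr W S ((a 0 : W.H S) * (a j : W.H S)) =
      M 0 0 * qtr W S ((a 0 : W.H S) * (a 0 : W.H S)) := by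
    rw [Fin.sum_univ_succ, Finset.sum_eq_zero fun j _ => by rw [hF.sep, zero_mul], add_zero]
  have e2 : ∀ i : Fin r, ∑ j, M i.succ j * qtr W S ((a i.succ : W.H S) * (a j : W.H S)) =
      ∑ j : Fin r, M i.succ j.succ * qtr W S ((a i.succ : W.H S) * (a j.succ : W.H S)) := by
    intro i
    rw [Fin.sum_univ_succ, M_symm hF i.succ 0, hF.sep, zero_mul, zero_add]
  rw [e1, Finset.sum_congr rfl fun i _ => e2 i]
  refine add_nonneg (mul_nonneg hF.pos.le h0) ?_
  let G : alg W S 1 →ₗ[ℚ] alg W S 1 →ₗ[ℚ] ℚ :=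
    (qf W S).domRestrict₁₂ (alg W S 1) (alg W S 1)
  have hG : ∀ a b : alg W S 1, G a b = qtr W S ((a : W.H S) * b) := fun _ _ => rfl
  let φ : alg W S 1 →ₗ[ℚ] ℚ := ((qf W S).flip (W.cl S h)) ∘ₗ (alg W S 1).subtype
  refine nonneg_tensor G φ ?_ (fun i j => M i.succ j.succ) (fun i j => M_symm hF _ _) ?_
    (fun i => a i.succ) (fun i => h1 i)
  · intro w hw
    rw [hG]
    exact nonpos_of_orth hF w hw
  · intro c
    by_cases hc : c = 0
    · subst hc; simp
    · exact (hF.neg c hc).le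

/-- The divisors on `P`. -/
lemma divisors (hF : IsSurfaceFibration W p h D ε M) {n : ℕ} (d : Fin n → alg W S 1)
    (hd : ∀ c : Fin n → ℚ, ∑ i, c i • d i ∈ ntDiv W S → c = 0) {N : ℕ}
    (hN : n + (r + 1) + m = N) :
    ∃ d' : Fin N → alg W P 1, ∀ c : Fin N → ℚ, ∑ i, c i • d' i ∈ ntDiv W P → c = 0 := by
  classical
  have hS := hF.dimS
  have hP := hF.dimP
  have hη := η_mem hF
  have hβ := β_mem hF
  have hγ := γ_mem hF
  have hηη : W.cl S h * W.cl S h ∈ alg W S 2 := alg_mul hη hη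
  let f : (Fin n ⊕ Fin (r + 1)) ⊕ Fin m → alg W P 1 := fun x => match x with
    | Sum.inl (Sum.inl i) => ⟨W.map p (d i), alg_map p (d i).2⟩
    | Sum.inl (Sum.inr i) => ⟨W.cl P (D i), hβ i⟩
    | Sum.inr j => ⟨W.cl P (ε j), hγ j⟩
  refine exists_fin_indep (ntDiv W P) (κ := (Fin n ⊕ Fin (r + 1)) ⊕ Fin m) (by simpa using hN) f ?_
  intro c hc
  have key : ∀ y ∈ alg W P 3, ∑ i, c (Sum.inl (Sum.inl i)) * qtr W P (W.map p (d i : W.H S) * y) +
      ∑ i, c (Sum.inl (Sum.inr i)) * qtr W P (W.cl P (D i) * y) +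
        ∑ j, c (Sum.inr j) * qtr W P (W.cl P (ε j) * y) = 0 := by
    intro y hy
    let τ : alg W P 1 →ₗ[ℚ] ℚ := ((qf W P).flip y) ∘ₗ (alg W P 1).subtype
    have h1 : τ (∑ x, c x • f x) = 0 := hc y (by rw [hP]; exact hy)
    rw [Fintype.sum_sum_type, Fintype.sum_sum_type, map_add, map_add, map_sum,
      map_sum, map_sum] at h1
    rw [← h1]
    congr 1
    · congr 1
      · exact Finset.sum_congr rfl fun i _ => by rw [map_smul]; rfl
      · exact Finset.sum_congr rfl fun i _ => by rw [map_smul]; rfl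
    · exact Finset.sum_congr rfl fun i _ => by rw [map_smul]; rfl
  -- the divisors `D i`: intersection with `p^* h^2 · D j`
  have hM : ∀ j, ∑ i, M j i * c (Sum.inl (Sum.inr i)) = 0 := by
    intro j
    have h1 := key _ (alg_mul (i := 2) (j := 1) (alg_map p hηη) (hβ j))
    rw [Finset.sum_eq_zero fun i _ => by
      rw [← mul_assoc, ← map_mul, ← mul_assoc, zero_of_three hF (d i).2 hη hη, map_zero, zero_mul,
        map_zero, mul_zero], zero_add] at h1
    have e1 : ∀ i, qtr W P (W.cl P (D i) * (W.map p (W.cl S h * W.cl S h) * W.cl P (D j))) =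
        M i j * qtr W S (W.cl S h * W.cl S h) := fun i => by
      rw [← mul_assoc, alg_comm (hβ i), mul_assoc, ββ hF]
    have e2 : ∀ i, qtr W P (W.cl P (ε i) * (W.map p (W.cl S h * W.cl S h) * W.cl P (D j))) = 0 :=
      fun i => by rw [← mul_assoc, alg_comm (hγ i), mul_assoc, γβ hF]
    rw [Finset.sum_eq_zero (s := Finset.univ) (f := fun i => c (Sum.inr i) *
      qtr W P (W.cl P (ε i) * (W.map p (W.cl S h * W.cl S h) * W.cl P (D j))))
      fun i _ => by rw [e2, mul_zero], add_zero] at h1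
    have e3 : ∑ i, c (Sum.inl (Sum.inr i)) *
        qtr W P (W.cl P (D i) * (W.map p (W.cl S h * W.cl S h) * W.cl P (D j))) =
        (∑ i, M j i * c (Sum.inl (Sum.inr i))) * qtr W S (W.cl S h * W.cl S h) := by
      rw [Finset.sum_mul]
      exact Finset.sum_congr rfl fun i _ => by rw [e1, M_symm hF j i]; ring
    rw [e3] at h1
    exact (mul_eq_zero.1 h1).resolve_right (η_pos hF).ne'
  have hc0 : c (Sum.inl (Sum.inr 0)) = 0 := by
    have h1 := hM 0
    rw [Fin.sum_univ_succ, Finset.sum_eq_zero fun i _ => by rw [hF.sep, zero_mul], add_zero] at h1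
    exact (mul_eq_zero.1 h1).resolve_left hF.pos.ne'
  have hcs : (fun i : Fin r => c (Sum.inl (Sum.inr i.succ))) = 0 := by
    by_contra hne
    have h1 := hF.neg _ hne
    have h2 : ∑ i : Fin r, ∑ j : Fin r, c (Sum.inl (Sum.inr i.succ)) *
        c (Sum.inl (Sum.inr j.succ)) * M i.succ j.succ = 0 := by
      refine Finset.sum_eq_zero fun i _ => ?_
      have h3 := hM i.succ
      rw [Fin.sum_univ_succ, hc0, mul_zero, zero_add] at h3
      have h4 : ∑ j : Fin r, c (Sum.inl (Sum.inr i.succ)) * c (Sum.inl (Sum.inr j.succ)) *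
          M i.succ j.succ = c (Sum.inl (Sum.inr i.succ)) *
            ∑ j : Fin r, M i.succ j.succ * c (Sum.inl (Sum.inr j.succ)) := by
        rw [Finset.mul_sum]
        exact Finset.sum_congr rfl fun j _ => by ring
      rw [h4, h3, mul_zero]
    rw [h2] at h1
    exact lt_irrefl _ h1
  have hcD : ∀ i, c (Sum.inl (Sum.inr i)) = 0 :=
    Fin.cases hc0 fun i => congrFun hcs i
  have key2 : ∀ y ∈ alg W P 3, ∑ i, c (Sum.inl (Sum.inl i)) *
      qtr W P (W.map p (d i : W.H S) * y) + ∑ j, c (Sum.inr j) * qtr W P (W.cl P (ε j) * y) = 0 := by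
    intro y hy
    have h1 := key y hy
    rwa [Finset.sum_eq_zero (s := Finset.univ) (f := fun i => c (Sum.inl (Sum.inr i)) *
      qtr W P (W.cl P (D i) * y)) fun i _ => by rw [hcD, zero_mul], add_zero] at h1
  -- the divisors `ε j`: intersection with `ε i · D 0 · p^* h`
  have hcE : (fun j => c (Sum.inr j)) = 0 := by
    by_contra hne
    have h1 := hF.negN _ hne
    have h2 : ∑ i, ∑ j, c (Sum.inr i) * c (Sum.inr j) *
        inum ops (ops.mul (ε i) (ε j)) (ops.mul (D 0) (ops.pull p h)) = 0 := by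
      refine Finset.sum_eq_zero fun i _ => ?_
      have h3 := key2 _ (alg_mul (i := 1) (j := 2) (hγ i)
        (alg_mul (i := 1) (j := 1) (alg_map p hη) (hβ 0)))
      have e1 : ∀ l, qtr W P (W.map p (d l : W.H S) *
          (W.cl P (ε i) * (W.map p (W.cl S h) * W.cl P (D 0)))) = 0 := fun l => by
        have : W.map p (d l : W.H S) * (W.cl P (ε i) * (W.map p (W.cl S h) * W.cl P (D 0))) =
            W.map p ((d l : W.H S) * W.cl S h) * (W.cl P (ε i) * W.cl P (D 0)) := by
          rw [map_mul, ← mul_assoc (W.cl P (ε i)), alg_comm (hγ i) (W.map p (W.cl S h)),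
            mul_assoc (W.map p (W.cl S h)), ← mul_assoc]
        rw [this, γβ hF]
      rw [Finset.sum_eq_zero fun l _ => by rw [e1, mul_zero], zero_add] at h3
      have e2 : ∀ j, inum ops (ops.mul (ε i) (ε j)) (ops.mul (D 0) (ops.pull p h)) =
          qtr W P (W.cl P (ε j) * (W.cl P (ε i) * (W.map p (W.cl S h) * W.cl P (D 0)))) := by
        intro j
        rw [inum_eq (W := W) (ops.mul_mem (hF.isCycE i) (hF.isCycE j))
          (ops.mul_mem (hF.isCycD 0) (ops.pull_mem p hF.index.isCyc)) (by rw [hP]), W.cl_mul,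
          W.cl_mul, W.cl_pull, alg_comm (hγ i) (W.cl P (ε j)),
          alg_comm (hβ 0) (W.map p (W.cl S h)), mul_assoc]
      have e3 : ∑ j, c (Sum.inr i) * c (Sum.inr j) *
          inum ops (ops.mul (ε i) (ε j)) (ops.mul (D 0) (ops.pull p h)) =
          c (Sum.inr i) * ∑ j, c (Sum.inr j) *
            qtr W P (W.cl P (ε j) * (W.cl P (ε i) * (W.map p (W.cl S h) * W.cl P (D 0)))) := by
        rw [Finset.mul_sum]
        exact Finset.sum_congr rfl fun j _ => by rw [e2]; ring
      rw [e3, h3, mul_zero]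
    rw [h2] at h1
    exact lt_irrefl _ h1
  -- the divisors of `S`: intersection with `p^* a · D 0 · D 0`
  have hcS : (fun i => c (Sum.inl (Sum.inl i))) = 0 := by
    apply hd
    rw [mem_ntDiv]
    intro b hb
    rw [hS] at hb
    have h1 := key2 _ (alg_mul (i := 1) (j := 2) (alg_map p hb)
      (alg_mul (i := 1) (j := 1) (hβ 0) (hβ 0)))
    rw [Finset.sum_eq_zero (s := Finset.univ) (f := fun j => c (Sum.inr j) *
      qtr W P (W.cl P (ε j) * (W.map p b * (W.cl P (D 0) * W.cl P (D 0)))))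
      fun j _ => by rw [congrFun hcE j, Pi.zero_apply, zero_mul], add_zero] at h1
    let τ : alg W S 1 →ₗ[ℚ] ℚ := ((qf W S).flip b) ∘ₗ (alg W S 1).subtype
    change τ (∑ i, c (Sum.inl (Sum.inl i)) • d i) = 0
    rw [map_sum]
    have h2 : ∑ i, c (Sum.inl (Sum.inl i)) * qtr W P (W.map p (d i : W.H S) *
        (W.map p b * (W.cl P (D 0) * W.cl P (D 0)))) =
        M 0 0 * ∑ i, τ (c (Sum.inl (Sum.inl i)) • d i) := by
      rw [Finset.mul_sum]
      refine Finset.sum_congr rfl fun i _ => ?_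
      rw [← mul_assoc, ← map_mul, ββ hF, map_smul]
      change _ = M 0 0 * (_ * qtr W S ((d i : W.H S) * b))
      ring
    rw [h2] at h1
    exact (mul_eq_zero.1 h1).resolve_left hF.pos.ne'
  funext x
  match x with
  | Sum.inl (Sum.inl i) => exact congrFun hcS i
  | Sum.inl (Sum.inr i) => exact hcD i
  | Sum.inr j => exact congrFun hcE j

/-- **Fourfolds fibred over surfaces are good if the squares of the relative transcendental classes
are nonnegative.** -/
theorem good_of_fibration (hF : IsSurfaceFibration W p h D ε M)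
    (hpos : ∀ z, IsTranscendental ops p h D ε z → 0 ≤ inum ops z z) : Good W P := by
  classical
  have hS := hF.dimS
  have : Fact (1 ≤ S.dim) := ⟨by omega⟩
  have hη := η_mem hF
  let η' : alg W S 1 := ⟨W.cl S h, hη⟩
  have hηN : (ntDiv W S).mkQ η' ≠ 0 := by
    intro h0
    have h1 : η' ∈ ntDiv W S := (Submodule.Quotient.mk_eq_zero _).1 h0
    rw [mem_ntDiv, hS] at h1
    exact (η_pos hF).ne' (h1 _ hη)
  obtain ⟨n, g, hn, hg⟩ := exists_functional _ hηN
  obtain ⟨d, hd⟩ := exists_indep' (ntDiv W S) hn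
  -- the functionals
  let κ := (Unit ⊕ Fin m) ⊕ (Fin r ⊕ Fin n)
  have hκ : Fintype.card κ = 1 + m + (r + n) := by simp [κ]
  let q : W.H P → alg W P 2 →ₗ[ℚ] ℚ := fun c => ((qf W P).flip c) ∘ₗ (alg W P 2).subtype
  let G : alg W P 2 →ₗ[ℚ] (κ → ℚ) := LinearMap.pi fun x => match x with
    | Sum.inl (Sum.inl _) => q (W.map p (W.cl S h * W.cl S h))
    | Sum.inl (Sum.inr j) => q (W.map p (W.cl S h) * W.cl P (ε j))
    | Sum.inr (Sum.inl i) => q (W.map p (W.cl S h) * W.cl P (D i.succ))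
    | Sum.inr (Sum.inr l) => LinearMap.proj l ∘ₗ g ∘ₗ (ntDiv W S).mkQ ∘ₗ pb hF 0
  refine ⟨hF.dimP, 1 + m + (r + n), ?_, divisors hF d hd (by omega)⟩
  rw [← hκ]
  refine negLE_of_fintype G fun z hz => ?_
  have hz1 : qtr W P ((z : W.H P) * W.map p (W.cl S h * W.cl S h)) = 0 :=
    congrFun hz (Sum.inl (Sum.inl ()))
  have hz2 : ∀ j, qtr W P ((z : W.H P) * (W.map p (W.cl S h) * W.cl P (ε j))) = 0 :=
    fun j => congrFun hz (Sum.inl (Sum.inr j))
  have hz3 : ∀ i : Fin r, qtr W P ((z : W.H P) * (W.map p (W.cl S h) * W.cl P (D i.succ))) = 0 :=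
    fun i => congrFun hz (Sum.inr (Sum.inl i))
  have hz4 : g ((ntDiv W S).mkQ (pb hF 0 z)) = 0 := by
    funext l
    exact congrFun hz (Sum.inr (Sum.inr l))
  obtain ⟨a, c, t, ht, -, ha, hsq⟩ := decompose hF z hz1 hz2
  rw [hsq]
  refine add_nonneg (hpos t ht) (main_nonneg hF a ?_ ?_)
  · -- the coefficient of `D 0`
    obtain ⟨s, hs⟩ := hg _ hz4
    have h1 : pb hF 0 z - s • η' ∈ ntDiv W S := by
      rw [← Submodule.Quotient.mk_eq_zero, Submodule.Quotient.mk_sub, Submodule.Quotient.mk_smul,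
        sub_eq_zero]
      exact hs
    have h2 : pb hF 0 z = M 0 0 • a 0 := by
      rw [← ha 0, Fin.sum_univ_succ, Finset.sum_eq_zero fun i _ => by rw [hF.sep, zero_smul],
        add_zero]
    rw [h2] at h1
    rw [mem_ntDiv, hS] at h1
    have h3 : ∀ b ∈ alg W S 1, M 0 0 * qtr W S ((a 0 : W.H S) * b) =
        s * qtr W S (W.cl S h * b) := by
      intro b hb
      have h4 := h1 b hb
      change qtr W S ((M 0 0 • (a 0 : W.H S) - s • W.cl S h) * b) = 0 at h4
      rw [sub_mul, map_sub, rat_smul, rat_smul, smul_mul_assoc, smul_mul_assoc, ← rat_smul,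
        ← rat_smul, map_smul, map_smul, smul_eq_mul, smul_eq_mul] at h4
      linarith
    have h5 := h3 _ (a 0).2
    have h6 := h3 _ hη
    have h7 : qtr W S (W.cl S h * (a 0 : W.H S)) = qtr W S ((a 0 : W.H S) * W.cl S h) := by
      rw [alg_comm hη]
    rw [h7] at h5
    have h8 : M 0 0 * (M 0 0 * qtr W S ((a 0 : W.H S) * (a 0 : W.H S))) =
        s * s * qtr W S (W.cl S h * W.cl S h) := by
      rw [h5]
      linear_combination s * h6
    have h9 : 0 ≤ s * s * qtr W S (W.cl S h * W.cl S h) :=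
      mul_nonneg (mul_self_nonneg s) (η_pos hF).le
    rw [← h8] at h9
    exact nonneg_of_mul_nonneg_right (nonneg_of_mul_nonneg_right h9 hF.pos) hF.pos
  · -- the other coefficients
    have h1 : ∀ i : Fin r, ∑ j : Fin r, M i.succ j.succ *
        qtr W S ((a j.succ : W.H S) * W.cl S h) = 0 := by
      intro i
      have h2 := hz3 i
      rw [qtr_pb hF i.succ z hη, alg_comm hη, ← ha i.succ] at h2
      let τ : alg W S 1 →ₗ[ℚ] ℚ := ((qf W S).flip (W.cl S h)) ∘ₗ (alg W S 1).subtype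
      change τ (∑ j, M i.succ j • a j) = 0 at h2
      rw [Fin.sum_univ_succ, M_symm hF i.succ 0, hF.sep, zero_smul, zero_add, map_sum] at h2
      rw [← h2]
      exact Finset.sum_congr rfl fun j _ => by rw [map_smul]; rfl
    by_contra hne
    push Not at hne
    obtain ⟨i0, hi0⟩ := hne
    have h3 := hF.neg (fun j => qtr W S ((a j.succ : W.H S) * W.cl S h))
      (fun h0 => hi0 (congrFun h0 i0))
    have h4 : ∑ i : Fin r, ∑ j : Fin r, qtr W S ((a i.succ : W.H S) * W.cl S h) *
        qtr W S ((a j.succ : W.H S) * W.cl S h) * M i.succ j.succ = 0 := by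
      refine Finset.sum_eq_zero fun i _ => ?_
      have : ∑ j : Fin r, qtr W S ((a i.succ : W.H S) * W.cl S h) *
          qtr W S ((a j.succ : W.H S) * W.cl S h) * M i.succ j.succ =
          qtr W S ((a i.succ : W.H S) * W.cl S h) * ∑ j : Fin r, M i.succ j.succ *
            qtr W S ((a j.succ : W.H S) * W.cl S h) := by
        rw [Finset.mul_sum]
        exact Finset.sum_congr rfl fun j _ => by ring
      rw [this, h1, mul_zero]
    rw [h4] at h3
    exact lt_irrefl _ h3

end Pool.Agent.H934.SF
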