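import Pool.Agent.H934.SF.Sign
import Pool.Agent.H934.SF.Good
import Pool.Agent.H934.HS.Image

/-!
# Fourfolds fibred over surfaces, and products of two surfaces
-/

open CategoryTheory AlgebraicGeometry Module Matrix

universe u v

namespace Pool.Agent.H934.SF

open Pool.Agent.H914 Pool.Agent.H914.VarClass Pool.Agent.H914.VarClass.Obj
  Pool.Agent.H914.WeilCohomology Pool.Agent.H934.HS Pool.Agent.H934.Lift Pool.Agent.H934.PA

variable {k : Type u} [Field k] {𝒱 : VarClass k} {ops : CycleOps 𝒱}

section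

variable {W : WeilCohomology.{u, v} ops} {X Y : 𝒱.Obj} {h : X.Cycles} {h' : Y.Cycles}
    {a b m : ℕ} {d : Fin (a + 1) → X.Cycles} {e : Fin (b + 1) → Y.Cycles}
    {ε : Fin m → (X.prod Y).Cycles} {z : (X.prod Y).Cycles}

/-- The second projection is a fibration. -/
theorem fibration_of_pair (hP : IsPairOfSurfaces W X Y h h' ε) (hd : NSBasis ops X h d) :
    IsSurfaceFibration W (snd X Y) h' (fun i => ops.pull (fst X Y) (d i)) ε
      (fun i j => inum ops (d i) (d j)) where
  dimP := by rw [dim_prod, hP.dimX, hP.dimY]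
  dimS := hP.dimY
  index := hP.indexY
  isCycD i := ops.pull_mem _ (hd.isCyc i)
  isCycE := hP.albanese.isCyc
  fibre i j := by
    rw [HomEq, W.cl_push, W.cl_mul, W.cl_pull, W.cl_pull, ← map_mul, push_snd',
      tr_div hP.dimX (hd.isCyc i) (hd.isCyc j), cl_smul, W.cl_fund]
  pos := by
    rw [hd.zero]
    exact hd.pos
  sep i := hd.orth _ _ (Fin.succ_ne_zero i).symm
  neg c hc := by
    have h1 : ∀ i : Fin a, ∑ j : Fin a, c i * c j * inum ops (d i.succ) (d j.succ) =
        c i ^ 2 * inum ops (d i.succ) (d i.succ) := by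
      intro i
      rw [Finset.sum_eq_single i]
      · ring
      · intro j _ hj
        rw [hd.orth _ _ (fun h0 => hj (Fin.succ_injective _ h0).symm), mul_zero]
      · intro hi; exact absurd (Finset.mem_univ i) hi
    simp only [h1]
    obtain ⟨i, hi⟩ := Function.ne_iff.1 hc
    refine Finset.sum_neg' (fun j _ => mul_nonpos_of_nonneg_of_nonpos (sq_nonneg _)
      (hd.neg j).le) ⟨i, Finset.mem_univ i, mul_neg_of_pos_of_neg ?_ (hd.neg i)⟩
    exact lt_of_le_of_ne (sq_nonneg _) (pow_ne_zero 2 hi).symm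
  vertD j i := hP.albanese.vertD j _ (hd.isCyc i)
  vert := hP.albanese.vert
  negN c hc := by
    rw [hd.zero]
    exact hP.albanese.neg c hc

/-- Transcendental cycles are transcendental correspondences. -/
theorem ctx_of_trans (hP : IsPairOfSurfaces W X Y h h' ε) (hd : NSBasis ops X h d)
    (he : NSBasis ops Y h' e)
    (hz : IsTranscendental ops (snd X Y) h' (fun i => ops.pull (fst X Y) (d i)) ε z) :
    Ctx W h h' d e z where
  dimX := hP.dimX
  dimY := hP.dimY
  iX := hP.indexX
  iY := hP.indexY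
  nX := hd
  nY := he
  hz := hz.isCyc
  fibre := hz.fibre
  divisor t i ht := hz.divisor t i ht
  square := hz.square
  odd := by
    intro i hi x hx
    apply corr_eq_zero
    refine hP.albanese.odd z hz.isCyc (fun j => ?_) hz.vert i hi x hx
    have := hz.vertD j
    rw [hd.zero] at this
    exact this

end

theorem fibred_of_disjoint {W : WeilCohomology.{u, v} ops} {X Y : 𝒱.Obj}
    (hP : IsDisjointPair W X Y) : IsPositivelyFibred W (X.prod Y) := by
  obtain ⟨h, h', m, ε, hP, hT⟩ := hP
  obtain ⟨a, d, hd⟩ := exists_ns hP.indexX hP.dimX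
  obtain ⟨b, e, he⟩ := exists_ns hP.indexY hP.dimY
  refine ⟨Y, snd X Y, h', a, m, _, ε, _, fibration_of_pair hP hd, fun z hz => ?_⟩
  have hC := ctx_of_trans hP hd he hz
  have h1 := hC.selfint (s := 0) (fun x hx => by
    rw [corr_eq_zero (fun y => hT z hz.isCyc x y hx), map_zero, zero_smul])
  rw [mul_zero] at h1
  have h2 : inum ops z z = 0 := by exact_mod_cast h1
  exact h2.ge

theorem fibred_of_square {W : WeilCohomology.{u, v} ops} {X : 𝒱.Obj}
    (hP : IsScalarSquare W X) : IsPositivelyFibred W (X.prod X) := by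
  obtain ⟨h, m, ε, hP, hs⟩ := hP
  obtain ⟨a, d, hd⟩ := exists_ns hP.indexX hP.dimX
  exact ⟨X, snd X X, h, a, m, _, ε, _, fibration_of_pair hP hd,
    fun z hz => (ctx_of_trans hP hd hd hz).nonneg_self hs⟩

theorem fibred_of_unequal {W : WeilCohomology.{u, v} ops} {X Y : 𝒱.Obj}
    (hP : IsUnequalPair W X Y) : IsPositivelyFibred W (X.prod Y) := by
  obtain ⟨h, h', m, ε, hP, hsX, hr⟩ := hP
  obtain ⟨a, d, hd⟩ := exists_ns hP.indexX hP.dimX
  obtain ⟨b, e, he⟩ := exists_ns hP.indexY hP.dimY
  refine ⟨Y, snd X Y, h', a, m, _, ε, _, fibration_of_pair hP hd, fun z hz => ?_⟩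
  have hC := ctx_of_trans hP hd he hz
  by_contra hlt
  have hq : inum ops z z ≠ 0 := (not_le.1 hlt).ne
  rw [transRank_eq, transRank_eq] at hr
  obtain ⟨-, -, -, -, -, hle, -⟩ := hC.main hsX hq
  rcases hr with hr | ⟨hsY, hr⟩
  · omega
  · exact hr (hC.rank_eq hsX hsY hq)

theorem fibred_of_lifted {S : Nat.Primes → WeilCohomology.{u, v} ops} {p : ℕ} {X Y : 𝒱.Obj}
    (hP : IsLiftedPair S p X Y) {l : Nat.Primes} (hl : (l : ℕ) ≠ p)
    (hr : transRank (S l) X = transRank (S l) Y) (ho : Odd (transRank (S l) X)) :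
    IsPositivelyFibred (S l) (X.prod Y) := by
  obtain ⟨h, h', m, ε, n, G, n', G', hs1, hs2, hS⟩ := hP
  obtain ⟨a, d, hd⟩ := exists_ns (hS l hl).2.1.indexX (hS l hl).2.1.dimX
  obtain ⟨b, e, he⟩ := exists_ns (hS l hl).2.1.indexY (hS l hl).2.1.dimY
  refine ⟨Y, snd X Y, h', a, m, _, ε, _, fibration_of_pair (hS l hl).2.1 hd, fun z hz => ?_⟩
  exact nonneg_of_odd (S := ⟨S, fun L hL => (hS L hL).1⟩) hs1 hs2 (fun L hL => (hS L hL).2.2)
    (fun L hL => ctx_of_trans (hS L hL).2.1 hd he hz) hl hr ho

theorem good_of_fibred {W : WeilCohomology.{u, v} ops} {P : 𝒱.Obj}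
    (hP : IsPositivelyFibred W P) : Good W P := by
  obtain ⟨_, p, h, r, m, D, ε, M, hF, hpos⟩ := hP
  exact good_of_fibration hF hpos

/-- **The standard conjecture of Hodge type for fourfolds derived from fibrations over surfaces and
products of surfaces.** -/
theorem good_of_derived {W : WeilCohomology.{u, v} ops} {X : 𝒱.Obj} (hX : Derived W X) :
    Good W X := by
  induction hX with
  | fibred h => exact good_of_fibred h
  | disjoint h => exact good_of_fibred (fibred_of_disjoint h)
  | square h => exact good_of_fibred (fibred_of_square h)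
  | unequal h => exact good_of_fibred (fibred_of_unequal h)
  | lifted S p l hl hW h hr ho =>
    subst hW
    exact good_of_fibred (fibred_of_lifted h hl hr ho)
  | blowUp π j g i h _ ih => exact good_blowUp h ih
  | image q D A h _ ih => exact good_image q D A h ih

end Pool.Agent.H934.SF
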