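import Mathlib

/-!
# Definite matrices are invertible
-/

open Matrix

namespace Pool.Agent.H934.SF

/-- A negative definite matrix is invertible. -/
lemma exists_inv_of_neg {m : ℕ} (N : Fin m → Fin m → ℚ)
    (hN : ∀ c : Fin m → ℚ, c ≠ 0 → ∑ i, ∑ j, c i * c j * N i j < 0) :
    ∃ I : Fin m → Fin m → ℚ, ∀ i k, ∑ j, N i j * I j k = if i = k then 1 else 0 := by
  classical
  have hinj : Function.Injective (Matrix.of N).mulVec := by
    rw [← Matrix.coe_mulVecLin, ← LinearMap.ker_eq_bot, LinearMap.ker_eq_bot']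
    intro c hc
    by_contra hne
    have h1 := hN c hne
    have h2 : ∀ i, ∑ j, N i j * c j = 0 := fun i => congrFun hc i
    have h3 : ∑ i, ∑ j, c i * c j * N i j = 0 := by
      refine Finset.sum_eq_zero fun i _ => ?_
      have : ∑ j, c i * c j * N i j = c i * ∑ j, N i j * c j := by
        rw [Finset.mul_sum]
        exact Finset.sum_congr rfl fun j _ => by ring
      rw [this, h2, mul_zero]
    rw [h3] at h1
    exact lt_irrefl _ h1
  have hu : IsUnit (Matrix.of N) := Matrix.mulVec_injective_iff_isUnit.1 hinj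
  refine ⟨fun i j => (Matrix.of N)⁻¹ i j, fun i k => ?_⟩
  have h1 : Matrix.of N * (Matrix.of N)⁻¹ = 1 :=
    Matrix.mul_nonsing_inv _ ((Matrix.isUnit_iff_isUnit_det _).1 hu)
  have h2 := congrFun (congrFun h1 i) k
  rw [Matrix.mul_apply, Matrix.one_apply] at h2
  exact h2

/-- The system with the matrix of a negative definite form has a solution. -/
lemma exists_solution {m : ℕ} (N : Fin m → Fin m → ℚ)
    (hN : ∀ c : Fin m → ℚ, c ≠ 0 → ∑ i, ∑ j, c i * c j * N i j < 0) (b : Fin m → ℚ) :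
    ∃ x : Fin m → ℚ, ∀ i, ∑ j, N i j * x j = b i := by
  obtain ⟨I, hI⟩ := exists_inv_of_neg N hN
  refine ⟨fun j => ∑ k, I j k * b k, fun i => ?_⟩
  simp only [Finset.mul_sum]
  rw [Finset.sum_comm]
  have : ∀ k, ∑ j, N i j * (I j k * b k) = (if i = k then 1 else 0) * b k := by
    intro k
    rw [← hI i k, Finset.sum_mul]
    exact Finset.sum_congr rfl fun j _ => by ring
  simp only [this, ite_mul, one_mul, zero_mul, Finset.sum_ite_eq, Finset.mem_univ, if_true]

/-- A functional with values in `ℚ ^ n` whose kernel is spanned by a vector, in dimension `n + 1`. -/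
lemma exists_functional {V : Type*} [AddCommGroup V] [Module ℚ V] [FiniteDimensional ℚ V]
    (w : V) (hw : w ≠ 0) :
    ∃ (n : ℕ) (g : V →ₗ[ℚ] (Fin n → ℚ)), Module.finrank ℚ V = n + 1 ∧
      ∀ v, g v = 0 → ∃ t : ℚ, v = t • w := by
  have h1 := Submodule.finrank_quotient_add_finrank (ℚ ∙ w)
  rw [finrank_span_singleton hw] at h1
  let e : (V ⧸ (ℚ ∙ w)) ≃ₗ[ℚ] (Fin (Module.finrank ℚ (V ⧸ (ℚ ∙ w))) → ℚ) :=
    LinearEquiv.ofFinrankEq _ _ (by rw [Module.finrank_fin_fun])
  refine ⟨_, e.toLinearMap ∘ₗ (ℚ ∙ w).mkQ, h1.symm, fun v hv => ?_⟩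
  have h2 : e ((ℚ ∙ w).mkQ v) = 0 := hv
  rw [e.map_eq_zero_iff] at h2
  have h3 : v ∈ ℚ ∙ w := (Submodule.Quotient.mk_eq_zero _).1 h2
  obtain ⟨t, ht⟩ := Submodule.mem_span_singleton.1 h3
  exact ⟨t, ht.symm⟩

end Pool.Agent.H934.SF
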