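import Mathlib

/-!
# Discriminants in orthogonal bases
-/

open Module Matrix

namespace Pool.Agent.H934.SF

variable {K V : Type*} [Field K] [AddCommGroup V] [Module K V]

lemma indep_of_gram (B : V →ₗ[K] V →ₗ[K] K) {d : ℕ} (b : Fin d → V)
    (G : Matrix (Fin d) (Fin d) K) (hG : ∀ i j, B (b i) (b j) = G i j) (hdet : G.det ≠ 0) :
    LinearIndependent K b := by
  rw [Fintype.linearIndependent_iff]
  intro t ht
  have h1 : t ᵥ* G = 0 := by
    funext j
    have h2 := congrArg (fun v => B v (b j)) ht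
    simp only [map_sum, map_smul, LinearMap.sum_apply, LinearMap.smul_apply, smul_eq_mul, map_zero,
      LinearMap.zero_apply, hG] at h2
    exact h2
  have h3 := Matrix.eq_zero_of_vecMul_eq_zero hdet h1
  exact fun i => congrFun h3 i

lemma indep_of_orth {κ : Type*} [Fintype κ] (B : V →ₗ[K] V →ₗ[K] K) (g : κ → V)
    (w : κ → K) (hw : ∀ x, w x ≠ 0) (hgw : ∀ x, B (g x) (g x) = w x)
    (horth : ∀ x y, x ≠ y → B (g x) (g y) = 0) : LinearIndependent K g := by
  rw [Fintype.linearIndependent_iff]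
  intro t ht x
  have h2 := congrArg (fun v => B v (g x)) ht
  simp only [map_sum, map_smul, LinearMap.sum_apply, LinearMap.smul_apply, smul_eq_mul, map_zero,
    LinearMap.zero_apply] at h2
  rw [Finset.sum_eq_single x] at h2
  · rw [hgw] at h2
    exact (mul_eq_zero.1 h2).resolve_right (hw x)
  · intro y _ hy
    rw [horth y x hy, mul_zero]
  · intro hx; exact absurd (Finset.mem_univ x) hx

/-- The discriminant of a form in an orthogonal basis. -/
theorem det_gram (B : V →ₗ[K] V →ₗ[K] K) (P : Submodule K V) {d : ℕ} (b : Fin d → V)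
    (hb : ∀ i, b i ∈ P) (hbs : ∀ a ∈ P, ∃ t : Fin d → K, a = ∑ i, t i • b i)
    (G : Matrix (Fin d) (Fin d) K) (hG : ∀ i j, B (b i) (b j) = G i j) (hdet : G.det ≠ 0)
    {κ : Type*} [Fintype κ] (g : κ → V) (hg : ∀ x, g x ∈ P)
    (hgs : ∀ a ∈ P, ∃ t : κ → K, a = ∑ i, t i • g i)
    (w : κ → K) (hw : ∀ x, w x ≠ 0) (hgw : ∀ x, B (g x) (g x) = w x)
    (horth : ∀ x y, x ≠ y → B (g x) (g y) = 0) :
    d = Fintype.card κ ∧ ∃ c : K, G.det * c ^ 2 = ∏ x, w x := by
  classical
  have hbi := indep_of_gram B b G hG hdet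
  have hgi := indep_of_orth B g w hw hgw horth
  have hbP : Submodule.span K (Set.range b) = P := by
    apply le_antisymm
    · rw [Submodule.span_le]
      rintro _ ⟨i, rfl⟩
      exact hb i
    · intro a ha
      obtain ⟨t, rfl⟩ := hbs a ha
      exact Submodule.sum_mem _ fun i _ => Submodule.smul_mem _ _ (Submodule.subset_span ⟨i, rfl⟩)
  have hgP : Submodule.span K (Set.range g) = P := by
    apply le_antisymm
    · rw [Submodule.span_le]
      rintro _ ⟨i, rfl⟩
      exact hg i
    · intro a ha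
      obtain ⟨t, rfl⟩ := hgs a ha
      exact Submodule.sum_mem _ fun i _ => Submodule.smul_mem _ _ (Submodule.subset_span ⟨i, rfl⟩)
  have hcard : d = Fintype.card κ := by
    have h1 := finrank_span_eq_card hbi
    have h2 := finrank_span_eq_card hgi
    rw [hbP] at h1
    rw [hgP] at h2
    rw [h1, Fintype.card_fin] at h2
    exact h2
  refine ⟨hcard, ?_⟩
  let e : Fin d ≃ κ := (Fintype.equivFinOfCardEq hcard.symm).symm
  choose N hN using fun j : Fin d => hbs (g (e j)) (hg _)
  let M : Matrix (Fin d) (Fin d) K := Matrix.of fun i j => N j i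
  have h1 : Mᵀ * G * M = Matrix.diagonal (fun j => w (e j)) := by
    ext j k
    have h2 : B (g (e j)) (g (e k)) = (Mᵀ * G * M) j k := by
      have h3 : (Mᵀ * G * M) j k = ∑ l, ∑ i, N j i * G i l * N k l := by
        rw [Matrix.mul_apply]
        refine Finset.sum_congr rfl fun l _ => ?_
        rw [Matrix.mul_apply, Finset.sum_mul]
        rfl
      rw [h3, Finset.sum_comm, hN j, hN k, map_sum B, LinearMap.sum_apply]
      refine Finset.sum_congr rfl fun i _ => ?_
      rw [map_sum (B (N j i • b i))]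
      refine Finset.sum_congr rfl fun l _ => ?_
      rw [map_smul, map_smul, LinearMap.smul_apply, hG, smul_eq_mul, smul_eq_mul]
      ring
    rw [← h2]
    by_cases hjk : j = k
    · subst hjk
      rw [Matrix.diagonal_apply_eq, hgw]
    · rw [Matrix.diagonal_apply_ne _ hjk]
      exact horth _ _ fun h => hjk (e.injective h)
  refine ⟨M.det, ?_⟩
  have h2 := congrArg Matrix.det h1
  rw [Matrix.det_mul, Matrix.det_mul, Matrix.det_transpose, Matrix.det_diagonal,
    Equiv.prod_comp e w] at h2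
  rw [← h2]
  ring

/-- Orthogonal bases of subspaces on which a symmetric form is nondegenerate. -/
theorem exists_orth [CharZero K] (B : V →ₗ[K] V →ₗ[K] K) (T : Submodule K V)
    [FiniteDimensional K T] (hs : ∀ x ∈ T, ∀ y ∈ T, B x y = B y x)
    (hn : ∀ x ∈ T, (∀ y ∈ T, B x y = 0) → x = 0) :
    ∃ f : Fin (finrank K T) → V, (∀ i, f i ∈ T) ∧
      (∀ a ∈ T, ∃ t : Fin (finrank K T) → K, a = ∑ i, t i • f i) ∧
      (∀ i, B (f i) (f i) ≠ 0) ∧ ∀ i j, i ≠ j → B (f i) (f j) = 0 := by
  classical
  let B' : LinearMap.BilinForm K T := B.domRestrict₁₂ T T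
  have hB' : ∀ x y : T, B' x y = B x y := fun _ _ => rfl
  have hBs : LinearMap.IsSymm B' := ⟨fun x y => hs x x.2 y y.2⟩
  have : Invertible (2 : K) := invertibleOfNonzero two_ne_zero
  obtain ⟨b, hb⟩ := LinearMap.BilinForm.exists_orthogonal_basis hBs
  have horth : ∀ i j, i ≠ j → B (b i) (b j) = 0 := fun i j hij => hb hij
  refine ⟨fun i => b i, fun i => (b i).2, fun a ha => ⟨fun i => b.repr ⟨a, ha⟩ i, ?_⟩,
    fun i h0 => ?_, horth⟩
  · have := congrArg Subtype.val (b.sum_repr ⟨a, ha⟩)
    rw [Submodule.coe_sum] at this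
    exact this.symm
  · have h1 : (b i : V) = 0 := by
      apply hn _ (b i).2
      intro y hy
      have h2 := congrArg Subtype.val (b.sum_repr ⟨y, hy⟩)
      rw [Submodule.coe_sum] at h2
      change ∑ j, ((b.repr ⟨y, hy⟩ j • b j : T) : V) = y at h2
      rw [← h2, map_sum]
      refine Finset.sum_eq_zero fun j _ => ?_
      rw [Submodule.coe_smul, map_smul]
      by_cases hij : i = j
      · subst hij; rw [h0, smul_zero]
      · rw [horth i j hij, smul_zero]
    exact b.ne_zero i (Subtype.ext h1)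

end Pool.Agent.H934.SF
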