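import Pool.Agent.H934.SF.Core
import Pool.Agent.H934.SF.Lin

/-!
# Fourfolds fibred over surfaces: the negative index
-/

open CategoryTheory AlgebraicGeometry Module

universe u v

namespace Pool.Agent.H934.SF

open Pool.Agent.H914 Pool.Agent.H914.VarClass Pool.Agent.H914.VarClass.Obj
  Pool.Agent.H914.WeilCohomology Pool.Agent.H934.HS

variable {k : Type u} [Field k] {𝒱 : VarClass k} {ops : CycleOps 𝒱}
  {W : WeilCohomology.{u, v} ops} {P S : 𝒱.Obj}
  {p : P ⟶ S} {h : S.Cycles} {r m : ℕ} {D : Fin (r + 1) → P.Cycles} {ε : Fin m → P.Cycles}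
  {M : Fin (r + 1) → Fin (r + 1) → ℚ}

/-- The push-forward of the product with `D i`. -/
noncomputable def pb (hF : IsSurfaceFibration W p h D ε M) (i : Fin (r + 1)) :
    alg W P 2 →ₗ[ℚ] alg W S 1 where
  toFun z := ⟨W.push p ((z : W.H P) * W.cl P (D i)),
    alg_push p (alg_mul z.2 (β_mem hF i)) (by rw [hF.dimS, hF.dimP])⟩
  map_add' a b := Subtype.ext (by
    change W.push p (((a : W.H P) + b) * _) = _
    rw [add_mul, map_add]; rfl)
  map_smul' c a := Subtype.ext (by
    change W.push p ((c • (a : W.H P)) * _) = c • W.push p ((a : W.H P) * _)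
    rw [rat_smul, rat_smul, smul_mul_assoc, map_smul])

lemma pb_coe (hF : IsSurfaceFibration W p h D ε M) (i : Fin (r + 1)) (z : alg W P 2) :
    ((pb hF i z : alg W S 1) : W.H S) = W.push p ((z : W.H P) * W.cl P (D i)) := rfl

/-- The intersection number of `z` and `p^* a · D i`. -/
lemma qtr_pb (hF : IsSurfaceFibration W p h D ε M) (i : Fin (r + 1)) (z : alg W P 2)
    {a : W.H S} {l : ℕ} (ha : a ∈ alg W S l) :
    qtr W P ((z : W.H P) * (W.map p a * W.cl P (D i))) = qtr W S (a * (pb hF i z : W.H S)) := by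
  rw [pb_coe, alg_comm ha, qtr_push_mul, alg_comm (alg_map p ha), mul_assoc]

lemma u1_single (hF : IsSurfaceFibration W p h D ε M) (i : Fin (r + 1)) (b : alg W S 1) :
    u1 hF (Pi.single i b) = ⟨W.map p (b : W.H S) * W.cl P (D i),
      alg_mul (i := 1) (j := 1) (alg_map p b.2) (β_mem hF i)⟩ := by
  change (∑ j, (⟨W.map p ((Pi.single i b : Fin (r + 1) → alg W S 1) j : W.H S) * W.cl P (D j),
    alg_mul (i := 1) (j := 1) (alg_map p ((Pi.single i b : Fin (r + 1) → alg W S 1) j).2)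
      (β_mem hF j)⟩ : alg W P 2)) = _
  rw [Finset.sum_eq_single i]
  · apply Subtype.ext
    simp
  · intro j _ hj
    apply Subtype.ext
    simp [Pi.single_eq_of_ne hj]
  · intro hi; exact absurd (Finset.mem_univ i) hi

/-- The matrix `M` is invertible. -/
lemma exists_inv (hF : IsSurfaceFibration W p h D ε M) (b : Fin (r + 1) → alg W S 1) :
    ∃ a : Fin (r + 1) → alg W S 1, ∀ i, ∑ j, M i j • a j = b i := by
  classical
  obtain ⟨I, hI⟩ := exists_inv_of_neg (fun i j : Fin r => M i.succ j.succ) hF.neg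
  refine ⟨Fin.cons ((M 0 0)⁻¹ • b 0) fun j => ∑ k, I j k • b k.succ, fun i => ?_⟩
  rw [Fin.sum_univ_succ]
  simp only [Fin.cons_zero, Fin.cons_succ]
  refine Fin.cases ?_ (fun i => ?_) i
  · rw [smul_smul, mul_inv_cancel₀ hF.pos.ne', one_smul,
      Finset.sum_eq_zero fun j _ => by rw [hF.sep, zero_smul], add_zero]
  · rw [M_symm hF i.succ 0, hF.sep, zero_smul, zero_add]
    simp only [Finset.smul_sum, smul_smul]
    rw [Finset.sum_comm]
    have : ∀ k, ∑ j : Fin r, (M i.succ j.succ * I j k) • b k.succ =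
        (if i = k then (1 : ℚ) else 0) • b k.succ := fun k => by
      rw [← hI i k, Finset.sum_smul]
    simp only [this, ite_smul, one_smul, zero_smul, Finset.sum_ite_eq, Finset.mem_univ, if_true]

/-- A class of codimension two on `S` is a multiple of `h^2`. -/
lemma exists_mult (hF : IsSurfaceFibration W p h D ε M) {b : W.H S} (hb : b ∈ alg W S 2) :
    ∃ t : ℚ, b = t • (W.cl S h * W.cl S h) := by
  refine ⟨qtr W S b / qtr W S (W.cl S h * W.cl S h), ?_⟩
  rw [← sub_eq_zero]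
  have h1 : W.cl S h * W.cl S h ∈ alg W S 2 := alg_mul (η_mem hF) (η_mem hF)
  apply alg_eq_zero_of_top
  · rw [hF.dimS]
    exact sub_mem hb (Submodule.smul_mem _ _ h1)
  · rw [map_sub, map_smul, smul_eq_mul, div_mul_cancel₀ _ (η_pos hF).ne', sub_self]

/-- **The decomposition.** If the intersection numbers of `z` with `p^* h^2` and with the
`ε j · p^* h` vanish, then `z` is the sum of a transcendental class, of `∑ p^* a_i · D i`
and of a combination of the `ε j · p^* h` and `p^* h^2`. -/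
theorem decompose (hF : IsSurfaceFibration W p h D ε M) (z : alg W P 2)
    (h1 : qtr W P ((z : W.H P) * W.map p (W.cl S h * W.cl S h)) = 0)
    (h2 : ∀ j, qtr W P ((z : W.H P) * (W.map p (W.cl S h) * W.cl P (ε j))) = 0) :
    ∃ (a : Fin (r + 1) → alg W S 1) (c : (Fin m → ℚ) × ℚ) (t : P.Cycles),
      IsTranscendental ops p h D ε t ∧ (z : W.H P) = W.cl P t + (u1 hF a : W.H P) + (u2 hF c : W.H P) ∧
        (∀ i, ∑ j, M i j • a j = pb hF i z) ∧
        q2 W P z z = inum ops t t + q2 W P (u1 hF a) (u1 hF a) := by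
  classical
  have hS := hF.dimS
  have hP := hF.dimP
  have hη := η_mem hF
  have hβ := β_mem hF
  have hγ := γ_mem hF
  have hηη : W.cl S h * W.cl S h ∈ alg W S 2 := alg_mul hη hη
  obtain ⟨a, ha⟩ := exists_inv hF (fun i => pb hF i z)
  -- products with the classes `p^* a D i`
  have hdiv : ∀ (b : alg W S 1) i, qtr W P ((z : W.H P) * (W.map p (b : W.H S) * W.cl P (D i))) =
      q2 W P (u1 hF a) ⟨W.map p (b : W.H S) * W.cl P (D i),
        alg_mul (i := 1) (j := 1) (alg_map p b.2) (hβ i)⟩ := by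
    intro b i
    rw [qtr_pb hF i z b.2, ← ha i, q2_symm, q2_u1]
    let τ : alg W S 1 →ₗ[ℚ] ℚ := (qf W S (b : W.H S)) ∘ₗ (alg W S 1).subtype
    change τ (∑ j, M i j • a j) = _
    rw [map_sum]
    refine Finset.sum_congr rfl fun j _ => ?_
    change _ = qtr W P (W.map p (b : W.H S) * W.cl P (D i) *
      (W.map p (a j : W.H S) * W.cl P (D j)))
    rw [swap_mul (i := 1) (j := 1) (hβ i), ← map_mul, ββ hF, map_smul]
    rfl
  -- the coefficients of the `ε j · p^* h`
  have hN1 : ∀ i j, inum ops (ops.mul (ε i) (ε j)) (ops.mul (D 0) (ops.pull p h)) =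
      qtr W P (W.map p (W.cl S h) * W.cl P (ε j) * (W.cl P (ε i) * W.cl P (D 0))) := by
    intro i j
    rw [inum_eq (W := W) (ops.mul_mem (hF.isCycE i) (hF.isCycE j))
      (ops.mul_mem (hF.isCycD 0) (ops.pull_mem p hF.index.isCyc)) (by rw [hP]), W.cl_mul, W.cl_mul,
      W.cl_pull]
    congr 1
    rw [alg_comm (hγ i) (W.cl P (ε j)), alg_comm (hβ 0) (W.map p (W.cl S h)), mul_assoc,
      ← mul_assoc (W.cl P (ε i)), alg_comm (hγ i) (W.map p (W.cl S h)),
      mul_assoc (W.map p (W.cl S h)), ← mul_assoc, alg_comm (hγ j) (W.map p (W.cl S h))]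
  obtain ⟨x, hx⟩ := exists_solution
    (fun i j => inum ops (ops.mul (ε i) (ε j)) (ops.mul (D 0) (ops.pull p h))) hF.negN
    (fun i => qtr W P (((z - u1 hF a : alg W P 2) : W.H P) * (W.cl P (ε i) * W.cl P (D 0))))
  -- the coefficient of the fibre
  obtain ⟨y, hy⟩ : ∃ y : ℚ, qtr W P (((z - u1 hF a - u2 hF (x, 0) : alg W P 2) : W.H P) *
      (W.cl P (D 0) * W.cl P (D 0))) = y * (M 0 0 * qtr W S (W.cl S h * W.cl S h)) :=
    ⟨_ / (M 0 0 * qtr W S (W.cl S h * W.cl S h)),
      (div_mul_cancel₀ _ (mul_pos hF.pos (η_pos hF)).ne').symm⟩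
  have hu2 : u2 hF (x, y) = u2 hF (x, 0) + u2 hF (0, y) := by
    rw [← map_add]; simp
  -- the transcendental class
  let v : alg W P 2 := z - u1 hF a - u2 hF (x, y)
  obtain ⟨t, ht, htv⟩ := v.2
  have hvz : z = v + u1 hF a + u2 hF (x, y) := by
    change z = z - u1 hF a - u2 hF (x, y) + u1 hF a + u2 hF (x, y)
    abel
  have hq : ∀ w : alg W P 2, q2 W P v w = q2 W P z w - q2 W P (u1 hF a) w -
      q2 W P (u2 hF (x, y)) w := fun w => by
    change q2 W P (z - u1 hF a - u2 hF (x, y)) w = _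
    rw [map_sub, map_sub]; rfl
  -- products of `v` with the classes `p^* b D i`
  have v1 : ∀ (b : alg W S 1) i, q2 W P v ⟨W.map p (b : W.H S) * W.cl P (D i),
        alg_mul (i := 1) (j := 1) (alg_map p b.2) (hβ i)⟩ = 0 := by
    intro b i
    rw [hq]
    have e1 : q2 W P z ⟨W.map p (b : W.H S) * W.cl P (D i),
        alg_mul (i := 1) (j := 1) (alg_map p b.2) (hβ i)⟩ =
      q2 W P (u1 hF a) ⟨W.map p (b : W.H S) * W.cl P (D i),
        alg_mul (i := 1) (j := 1) (alg_map p b.2) (hβ i)⟩ := hdiv b i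
    rw [e1, sub_self, zero_sub, neg_eq_zero, q2_symm]
    have e2 : (⟨W.map p (b : W.H S) * W.cl P (D i),
        alg_mul (i := 1) (j := 1) (alg_map p b.2) (hβ i)⟩ : alg W P 2) =
          u1 hF (Pi.single i b) := by
      exact (u1_single hF i b).symm
    rw [e2, q2_u1_u2]
  have v2 : ∀ w, q2 W P v (u2 hF w) = 0 := by
    intro w
    rw [hq, q2_u1_u2, q2_u2_u2, sub_zero, sub_zero, q2_u2, h1, mul_zero, add_zero]
    exact Finset.sum_eq_zero fun j _ => by rw [h2, mul_zero]
  -- products with the `ε i · D 0`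
  have v3 : ∀ i, qtr W P ((v : W.H P) * (W.cl P (ε i) * W.cl P (D 0))) = 0 := by
    intro i
    have e0 : (v : W.H P) = ((z - u1 hF a : alg W P 2) : W.H P) - (u2 hF (x, y) : W.H P) := rfl
    have e1 : qtr W P ((u2 hF (x, y) : W.H P) * (W.cl P (ε i) * W.cl P (D 0))) =
        ∑ j, inum ops (ops.mul (ε i) (ε j)) (ops.mul (D 0) (ops.pull p h)) * x j := by
      have e2 : qtr W P ((u2 hF (x, y) : W.H P) * (W.cl P (ε i) * W.cl P (D 0))) =
          q2 W P ⟨W.cl P (ε i) * W.cl P (D 0), alg_mul (i := 1) (j := 1) (hγ i) (hβ 0)⟩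
            (u2 hF (x, y)) := by
        rw [q2_symm]; rfl
      rw [e2, q2_u2]
      have e3 : qtr W P (W.cl P (ε i) * W.cl P (D 0) * W.map p (W.cl S h * W.cl S h)) = 0 := by
        rw [alg_comm (alg_mul (hγ i) (hβ 0)), γβ hF]
      change ∑ j, x j * qtr W P (W.cl P (ε i) * W.cl P (D 0) *
        (W.map p (W.cl S h) * W.cl P (ε j))) + y * qtr W P (W.cl P (ε i) * W.cl P (D 0) *
          W.map p (W.cl S h * W.cl S h)) = _
      rw [e3, mul_zero, add_zero]
      refine Finset.sum_congr rfl fun j _ => ?_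
      rw [hN1, mul_comm, alg_comm (alg_mul (hγ i) (hβ 0))]
    rw [e0, sub_mul, map_sub, e1, hx, sub_self]
  -- the product with `D 0 · D 0`
  have v4 : qtr W P ((v : W.H P) * (W.cl P (D 0) * W.cl P (D 0))) = 0 := by
    have e0 : (v : W.H P) = ((z - u1 hF a - u2 hF (x, 0) : alg W P 2) : W.H P) -
        (u2 hF (0, y) : W.H P) := by
      change ((z - u1 hF a - u2 hF (x, y) : alg W P 2) : W.H P) = _
      rw [hu2, ← sub_sub]
      rfl
    have e1 : qtr W P ((u2 hF (0, y) : W.H P) * (W.cl P (D 0) * W.cl P (D 0))) =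
        y * (M 0 0 * qtr W S (W.cl S h * W.cl S h)) := by
      have e2 : qtr W P ((u2 hF (0, y) : W.H P) * (W.cl P (D 0) * W.cl P (D 0))) =
          q2 W P ⟨W.cl P (D 0) * W.cl P (D 0), alg_mul (i := 1) (j := 1) (hβ 0) (hβ 0)⟩
            (u2 hF (0, y)) := by
        rw [q2_symm]; rfl
      rw [e2, q2_u2]
      change ∑ j, (0 : ℚ) * _ + y * qtr W P (W.cl P (D 0) * W.cl P (D 0) *
          W.map p (W.cl S h * W.cl S h)) = _
      rw [Finset.sum_eq_zero fun j _ => zero_mul _, zero_add,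
        alg_comm (alg_mul (hβ 0) (hβ 0)), ββ hF]
    rw [e0, sub_mul, map_sub, e1, hy, sub_self]
  refine ⟨a, (x, y), t, ?_, ?_, fun i => ha i, ?_⟩
  · -- transcendental
    have hin : ∀ {w : P.Cycles}, P.IsCyc 2 w → inum ops t w = qtr W P ((v : W.H P) * W.cl P w) := by
      intro w hw
      rw [inum_eq (W := W) ht hw (by rw [hP]), htv]
    refine ⟨ht, ?_, ?_, ?_, ?_, ?_⟩
    · intro b hb
      rw [hin (ops.pull_mem p hb), W.cl_pull]
      obtain ⟨s, hs⟩ := exists_mult hF (cl_mem_alg (W := W) hb)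
      have e1 := v2 (0, s)
      rw [q2_u2] at e1
      change ∑ j, (0 : ℚ) * _ + s * qtr W P ((v : W.H P) * W.map p (W.cl S h * W.cl S h)) = 0 at e1
      rw [Finset.sum_eq_zero fun j _ => zero_mul _, zero_add] at e1
      rw [hs, rat_smul, map_smul, mul_smul_comm, ← rat_smul, map_smul, smul_eq_mul, e1]
    · intro b i hb
      rw [hin (ops.mul_mem (ops.pull_mem p hb) (hF.isCycD i)), W.cl_mul, W.cl_pull]
      exact v1 ⟨W.cl S b, cl_mem_alg hb⟩ i
    · rw [hin (ops.mul_mem (hF.isCycD 0) (hF.isCycD 0)), W.cl_mul]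
      exact v4
    · intro j
      rw [hin (ops.mul_mem (hF.isCycE j) (ops.pull_mem p hF.index.isCyc)), W.cl_mul, W.cl_pull]
      have e1 := v2 (Pi.single j 1, 0)
      rw [q2_u2] at e1
      change ∑ i, (Pi.single j 1 : Fin m → ℚ) i * qtr W P ((v : W.H P) * (W.map p (W.cl S h) *
        W.cl P (ε i))) + (0 : ℚ) * _ = 0 at e1
      rw [zero_mul, add_zero, Finset.sum_eq_single j, Pi.single_eq_same, one_mul] at e1
      · rw [alg_comm (hγ j)]
        exact e1
      · intro i _ hi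
        rw [Pi.single_eq_of_ne hi, zero_mul]
      · intro hj; exact absurd (Finset.mem_univ j) hj
    · intro j
      rw [hin (ops.mul_mem (hF.isCycE j) (hF.isCycD 0)), W.cl_mul]
      exact v3 j
  · rw [htv]
    exact congrArg Subtype.val hvz
  · -- the square
    have e1 : inum ops t t = q2 W P v v := by
      rw [inum_eq (W := W) ht ht (by rw [hP]), htv]
      rfl
    have e2 : q2 W P v (u1 hF a) = 0 := by
      rw [q2_u1]
      exact Finset.sum_eq_zero fun i _ => v1 (a i) i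
    rw [e1, hvz]
    simp only [map_add, LinearMap.add_apply, q2_u1_u2, q2_u2_u2, v2, e2, add_zero]
    rw [q2_symm (u1 hF a) v, e2, q2_symm (u2 hF (x, y)) v, v2, q2_symm (u2 hF (x, y)) (u1 hF a),
      q2_u1_u2]
    ring

end Pool.Agent.H934.SF
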