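import Pool.Agent.H934.SF.Defs

/-!
# Products of two surfaces: definitions
-/

open CategoryTheory AlgebraicGeometry

universe u v

namespace Pool.Agent.H934.SF

open Pool.Agent.H914 Pool.Agent.H914.VarClass Pool.Agent.H914.VarClass.Obj
  Pool.Agent.H914.WeilCohomology Pool.Agent.H934.HS

variable {k : Type u} [Field k] {𝒱 : VarClass k} {ops : CycleOps 𝒱}

section

variable (W : WeilCohomology.{u, v} ops)

/-- The set of the elements of `H^i(X)`. -/
def degree (X : 𝒱.Obj) (i : ℕ) : Set (W.H X) := W.gr X i

/-- The number `∫ a b`. -/
noncomputable def pair (X : 𝒱.Obj) (a b : W.H X) : W.K := W.tr X (a * b)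

/-- The number `∫ z a b` for a cycle `z` on `X × Y`, an element `a` of the cohomology of `X`, and an
element `b` of the cohomology of `Y`. This is the product of `b` and of the image of `a` under the
correspondence `z`. -/
noncomputable def pairVia {X Y : 𝒱.Obj} (z : (X.prod Y).Cycles) (a : W.H X) (b : W.H Y) : W.K :=
  pair W (X.prod Y) (W.cl _ z) (W.map (fst X Y) a * W.map (snd X Y) b)

/-- The element `a` is in `H^2(X)`, where `X` is a surface, and it is orthogonal to the classes of all
cycles (divisors) `z` with the property `P`. -/
def IsOrth (X : 𝒱.Obj) (P : X.Cycles → Prop) (a : W.H X) : Prop :=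
  a ∈ degree W X 2 ∧ ∀ z, P z → pair W X a (W.cl X z) = 0

/-- The element `a` is in the transcendental part of the cohomology of the surface `X`: it is in
`H^2(X)` and orthogonal to the classes of all divisors. -/
def IsTransClass (X : 𝒱.Obj) (a : W.H X) : Prop := IsOrth W X (X.IsCyc 1) a

/-- The rank of the transcendental part of the cohomology of the surface `X`. -/
noncomputable def transRank (X : 𝒱.Obj) : ℕ := Set.finrank W.K {a | IsTransClass W X a}

/-- The algebraic correspondences from the surface `X` to itself act on the transcendental part of its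
cohomology by scalars. -/
def ScalarCorrespondences (X : 𝒱.Obj) : Prop :=
  ∀ c, (X.prod X).IsCyc 2 c → ∃ s, ∀ a, IsTransClass W X a → ∀ b,
    pairVia W c a b = s * pair W X a b

/-- The correspondences between the odd cohomology groups of the surfaces `X` and `Y` come from the
divisors `ε j` on the product, a basis of the homomorphisms from the Albanese variety of `X` to the
Picard variety of `Y`: they are numerically trivial on the fibres of the second projection, the
intersection form is negative definite on them, and a cycle of codimension two which is orthogonal to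
the `ε j · A` and `ε j · B` induces the zero map on the odd cohomology of `X`; here `A` and `B` are
the pull-backs of divisors `h` on `X` and `h'` on `Y` with the Hodge index theorem. This is known for all
surfaces (for `m = 0` if the Albanese variety of `X` is zero). -/
structure AlbaneseBasis (X Y : 𝒱.Obj) (A B : (X.prod Y).Cycles) {m : ℕ}
    (ε : Fin m → (X.prod Y).Cycles) : Prop where
  isCyc : ∀ j, (X.prod Y).IsCyc 1 (ε j)
  vertD : ∀ j d, X.IsCyc 1 d → HomEq W Y (ops.push (snd X Y) (ops.mul (ε j)
    (ops.pull (fst X Y) d))) 0
  vert : ∀ i j, HomEq W Y (ops.push (snd X Y) (ops.mul (ε i) (ε j))) 0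
  neg : ∀ c : Fin m → ℚ, c ≠ 0 → ∑ i, ∑ j, c i * c j *
    inum ops (ops.mul (ε i) (ε j)) (ops.mul A B) < 0
  odd : ∀ z, (X.prod Y).IsCyc 2 z → (∀ j, inum ops z (ops.mul (ε j) A) = 0) →
    (∀ j, inum ops z (ops.mul (ε j) B) = 0) → ∀ i, Odd i → ∀ a ∈ degree W X i, ∀ b,
      pairVia W z a b = 0

/-- The surfaces `X` and `Y`, with divisors `h` and `h'` for which the Hodge index theorem holds, and the
divisors `ε j` on the product which give the correspondences between the odd cohomology groups. -/
structure IsPairOfSurfaces (X Y : 𝒱.Obj) (h : X.Cycles) (h' : Y.Cycles) {m : ℕ}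
    (ε : Fin m → (X.prod Y).Cycles) : Prop where
  dimX : X.dim = 2
  dimY : Y.dim = 2
  indexX : HodgeIndex W X h
  indexY : HodgeIndex W Y h'
  albanese : AlbaneseBasis W X Y (ops.pull (fst X Y) h) (ops.pull (snd X Y) h') ε

/-- The surfaces `X` and `Y` have no common transcendental part: the algebraic correspondences from
`X` to `Y` induce zero on the transcendental part of the cohomology of `X`. For example this part is
zero for `X` or for `Y`, or there are no common Frobenius eigenvalues. -/
def IsDisjointPair (X Y : 𝒱.Obj) : Prop :=
  ∃ h h' m, ∃ ε : Fin m → (X.prod Y).Cycles, IsPairOfSurfaces W X Y h h' ε ∧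
    ∀ c, (X.prod Y).IsCyc 2 c → ∀ a b, IsTransClass W X a → pairVia W c a b = 0

/-- The algebraic correspondences from the surface `X` to itself act by scalars on the transcendental
part of the cohomology of `X`. -/
def IsScalarSquare (X : 𝒱.Obj) : Prop :=
  ∃ h m, ∃ ε : Fin m → (X.prod X).Cycles, IsPairOfSurfaces W X X h h ε ∧
    ScalarCorrespondences W X

/-- The algebraic correspondences from the surface `X` to itself act by scalars on the transcendental
part of the cohomology of `X`, and the transcendental part of the cohomology of the surface `Y` has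
smaller rank, or has different rank and the correspondences from `Y` to itself act on it by scalars as
well. -/
def IsUnequalPair (X Y : 𝒱.Obj) : Prop :=
  ∃ h h' m, ∃ ε : Fin m → (X.prod Y).Cycles, IsPairOfSurfaces W X Y h h' ε ∧
    ScalarCorrespondences W X ∧ (transRank W Y < transRank W X ∨
      (ScalarCorrespondences W Y ∧ transRank W X ≠ transRank W Y))

/-- The intersection form on the primitive part of `H^2(X)` (the orthogonal complement of the divisor
`h`) has the rational Gram matrix `G` in a suitable basis (`G` is invertible in the application, so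
that the last condition means that the `b i` generate the primitive part). -/
def HasGram (X : 𝒱.Obj) (h : X.Cycles) {n : ℕ} (G : Matrix (Fin n) (Fin n) ℚ) : Prop :=
  ∃ b : Fin n → W.H X, (∀ i, IsOrth W X (Eq h) (b i)) ∧
    (∀ i j, pair W X (b i) (b j) = (G i j : W.K)) ∧
    ∀ a, IsOrth W X (Eq h) a → (∀ i, pair W X (b i) a = 0) → a = 0

end

/-- `S l` are the `ℓ`-adic cohomology theories, with coefficients in `ℚ_ℓ`, for all primes `ℓ ≠ p`. The
surfaces `X` and `Y` lift to characteristic zero together with divisors `h` and `h'`, and the
correspondences from `X` to itself act by scalars on the transcendental part. The lifting enters as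
follows: the primitive part of `H^2(X)` has the same rational Gram matrix `G` for all `ℓ ≠ p` (the one of
the Betti cohomology of the lifting), and `(-1) ^ n · det G > 0`, where `n` is the rank, since the number
of the positive squares is even by the Hodge-Riemann relations (it is `2 p_g`); and similarly for `Y`. -/
def IsLiftedPair (S : Nat.Primes → WeilCohomology.{u, v} ops) (p : ℕ) (X Y : 𝒱.Obj) : Prop :=
  ∃ h h' m, ∃ ε : Fin m → (X.prod Y).Cycles, ∃ n, ∃ G : Matrix (Fin n) (Fin n) ℚ, ∃ n',
    ∃ G' : Matrix (Fin n') (Fin n') ℚ, 0 < (-1) ^ n * G.det ∧ 0 < (-1) ^ n' * G'.det ∧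
    ∀ l : Nat.Primes, (l : ℕ) ≠ p → Nonempty ((S l).K ≃+* @Padic (l : ℕ) ⟨l.2⟩) ∧
      IsPairOfSurfaces (S l) X Y h h' ε ∧ ScalarCorrespondences (S l) X ∧
      HasGram (S l) X h G ∧ HasGram (S l) Y h' G'

/-- The smallest class of fourfolds which contains

* the positively fibred fourfolds;
* the products of two surfaces with no common transcendental part;
* the products `X × Y`, where `X` is a surface on whose transcendental part the correspondences act by
  scalars and `Y` is `X` or a surface whose transcendental part has a smaller rank (or a different rank,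
  if the same is true for `Y`);
* if `W` is one of the `ℓ`-adic cohomology theories: the products of two surfaces as in `IsLiftedPair`
  whose transcendental parts have the same odd rank;

and which is stable under blowing up smooth centres and under images with respect to generically finite
morphisms. -/
inductive Derived (W : WeilCohomology.{u, v} ops) : 𝒱.Obj → Prop
  | fibred {P : 𝒱.Obj} (h : IsPositivelyFibred W P) : Derived W P
  | disjoint {X Y : 𝒱.Obj} (h : IsDisjointPair W X Y) : Derived W (X.prod Y)
  | square {X : 𝒱.Obj} (h : IsScalarSquare W X) : Derived W (X.prod X)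
  | unequal {X Y : 𝒱.Obj} (h : IsUnequalPair W X Y) : Derived W (X.prod Y)
  | lifted (S : Nat.Primes → WeilCohomology.{u, v} ops) (p : ℕ) (l : Nat.Primes)
      (hl : (l : ℕ) ≠ p) (hW : W = S l) {X Y : 𝒱.Obj} (h : IsLiftedPair S p X Y)
      (hr : transRank W X = transRank W Y) (ho : Odd (transRank W X)) : Derived W (X.prod Y)
  | blowUp {B X E Z : 𝒱.Obj} (π : B ⟶ X) (j : E ⟶ B) (g : E ⟶ Z) (i : Z ⟶ X)
      (h : IsBlowUp W π j g i) (hX : Derived W X) : Derived W B
  | image {P X : 𝒱.Obj} (q : P ⟶ X) (D : X.Cycles) (A : P.Cycles)
      (h : IsGenericallyFinite W q D A) (hP : Derived W P) : Derived W X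

end Pool.Agent.H934.SF
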