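import Pool.Agent.H934.SF.Conv
import Pool.Agent.H934.PA.Num

/-!
# The sign of the self-intersection numbers of transcendental correspondences
-/

open CategoryTheory AlgebraicGeometry Module Matrix

universe u v

namespace Pool.Agent.H934.SF

open Pool.Agent.H914 Pool.Agent.H914.VarClass Pool.Agent.H914.VarClass.Obj
  Pool.Agent.H914.WeilCohomology Pool.Agent.H934.HS Pool.Agent.H934.Lift Pool.Agent.H934.PA

variable {k : Type u} [Field k] {𝒱 : VarClass k} {ops : CycleOps 𝒱}

section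

variable {W : WeilCohomology.{u, v} ops} {X Y : 𝒱.Obj} {h : X.Cycles} {h' : Y.Cycles}
    {a b : ℕ} {d : Fin (a + 1) → X.Cycles} {e : Fin (b + 1) → Y.Cycles}
    {z : (X.prod Y).Cycles}

section

variable (hC : Ctx W h h' d e z)

include hC

lemma Ctx.scalar (hs : ScalarCorrespondences W X) : ∃ s : W.K, ∀ x ∈ transPart W X,
    W.corr (W.cl _ (tp ops z)) (W.corr (W.cl _ z) x) = s • x := by
  obtain ⟨s, hs⟩ := scalar_corr hs (compCyc ops z (tp ops z)) (compCyc_mem hC.hz (tp_mem hC.hz)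
    (by rw [hC.dimY]))
  refine ⟨s, fun x hx => ?_⟩
  rw [← hs x hx, corr_compCyc W (tp_mem hC.hz), LinearMap.comp_apply]

lemma Ctx.scalar' (hs : ScalarCorrespondences W Y) : ∃ s : W.K, ∀ y ∈ transPart W Y,
    W.corr (W.cl _ z) (W.corr (W.cl _ (tp ops z)) y) = s • y := by
  obtain ⟨s, hs⟩ := scalar_corr hs (compCyc ops (tp ops z) z) (compCyc_mem (tp_mem hC.hz) hC.hz
    (by rw [hC.dimX]))
  refine ⟨s, fun x hx => ?_⟩
  rw [← hs x hx, corr_compCyc W hC.hz, LinearMap.comp_apply]

/-- If `z · z ≠ 0` then `z` induces an injection of the transcendental parts. -/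
theorem Ctx.main (hsX : ScalarCorrespondences W X) (hq : inum ops z z ≠ 0) :
    ∃ s : W.K, s ≠ 0 ∧ finrank W.K (transPart W X) ≠ 0 ∧
      (inum ops z z : W.K) = (finrank W.K (transPart W X) : W.K) * s ∧
      (∀ x ∈ transPart W X, W.corr (W.cl _ (tp ops z)) (W.corr (W.cl _ z) x) = s • x) ∧
      finrank W.K (transPart W X) ≤ finrank W.K (transPart W Y) ∧
      (finrank W.K (transPart W X) = finrank W.K (transPart W Y) →
        ∀ y ∈ transPart W Y, ∃ x ∈ transPart W X, W.corr (W.cl _ z) x = y) := by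
  have hfX : FiniteDimensional W.K (W.H X) := (W.isPoincareAlgebra X).finite
  have hfY : FiniteDimensional W.K (W.H Y) := (W.isPoincareAlgebra Y).finite
  obtain ⟨s, hs⟩ := hC.scalar hsX
  have h1 := hC.selfint hs
  have hqK : (inum ops z z : W.K) ≠ 0 := by exact_mod_cast hq
  have hs0 : s ≠ 0 := fun h0 => hqK (by rw [h1, h0, mul_zero])
  have hr0 : finrank W.K (transPart W X) ≠ 0 := fun h0 => hqK (by
    rw [h1, h0, Nat.cast_zero, zero_mul])
  let f : transPart W X →ₗ[W.K] transPart W Y := (W.corr (W.cl _ z)).restrict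
    (fun x hx => corr_trans hC.dimX hC.dimY hC.hz hx)
  have hf : Function.Injective f := by
    rw [injective_iff_map_eq_zero]
    intro x hx
    have h2 : W.corr (W.cl _ z) x = 0 := congrArg Subtype.val hx
    have h3 := hs x x.2
    rw [h2, map_zero] at h3
    exact Subtype.ext ((smul_eq_zero.1 h3.symm).resolve_left hs0)
  refine ⟨s, hs0, hr0, h1, hs, LinearMap.finrank_le_finrank_of_injective hf, fun he y hy => ?_⟩
  obtain ⟨x, hx⟩ := (LinearMap.injective_iff_surjective_of_finrank_eq_finrank he).1 hf ⟨y, hy⟩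
  exact ⟨x, x.2, congrArg Subtype.val hx⟩

/-- If `z · z ≠ 0` and the correspondences act by scalars on both transcendental parts then the ranks are
equal. -/
theorem Ctx.rank_eq (hsX : ScalarCorrespondences W X) (hsY : ScalarCorrespondences W Y)
    (hq : inum ops z z ≠ 0) :
    finrank W.K (transPart W X) = finrank W.K (transPart W Y) := by
  have hfX : FiniteDimensional W.K (W.H X) := (W.isPoincareAlgebra X).finite
  have hfY : FiniteDimensional W.K (W.H Y) := (W.isPoincareAlgebra Y).finite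
  obtain ⟨s, hs0, hr0, -, hs, hle, -⟩ := hC.main hsX hq
  obtain ⟨t, ht⟩ := hC.scalar' hsY
  have hne : transPart W X ≠ ⊥ := fun h0 => hr0 (by rw [h0, finrank_bot])
  obtain ⟨x, hx, hx0⟩ := Submodule.exists_mem_ne_zero_of_ne_bot hne
  have hTx : W.corr (W.cl _ z) x ≠ 0 := fun h0 => by
    have h2 := hs x hx
    rw [h0, map_zero] at h2
    exact (smul_ne_zero hs0 hx0) h2.symm
  have hts : t = s := by
    have h2 := ht _ (corr_trans hC.dimX hC.dimY hC.hz hx)
    rw [hs x hx, map_smul] at h2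
    exact (smul_left_injective _ hTx h2).symm
  subst hts
  refine le_antisymm hle ?_
  let f : transPart W Y →ₗ[W.K] transPart W X := (W.corr (W.cl _ (tp ops z))).restrict
    (fun x hx => corr_trans' hC.dimX hC.dimY hC.hz hx)
  apply LinearMap.finrank_le_finrank_of_injective (f := f)
  rw [injective_iff_map_eq_zero]
  intro x hx
  have h2 : W.corr (W.cl _ (tp ops z)) x = 0 := congrArg Subtype.val hx
  have h3 := ht x x.2
  rw [h2, map_zero] at h3
  exact Subtype.ext ((smul_eq_zero.1 h3.symm).resolve_left hs0)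

end

/-- The primitive part. -/
noncomputable def primPart (W : WeilCohomology.{u, v} ops) (X : 𝒱.Obj) (h : X.Cycles) :
    Submodule W.K (W.H X) :=
  W.gr X 2 ⊓ LinearMap.ker ((W.tr X) ∘ₗ (LinearMap.mulRight W.K (W.cl X h)))

lemma mem_primPart {x : W.H X} : x ∈ primPart W X h ↔ IsOrth W X (Eq h) x := by
  rw [primPart, Submodule.mem_inf, LinearMap.mem_ker, LinearMap.comp_apply,
    LinearMap.mulRight_apply, isOrth_iff]
  constructor
  · rintro ⟨h1, h2⟩
    exact ⟨h1, fun z hz => by rw [← hz]; exact h2⟩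
  · rintro ⟨h1, h2⟩
    exact ⟨h1, h2 h rfl⟩

/-- The discriminant of the primitive part. -/
theorem disc (hd : NSBasis ops X h d) (hi : HodgeIndex W X h) (hX : X.dim = 2) {r : ℕ}
    {f : Fin r → W.H X} (hf : ∀ i, f i ∈ transPart W X)
    (hfs : ∀ x ∈ transPart W X, ∃ t : Fin r → W.K, x = ∑ i, t i • f i) {v : Fin r → W.K}
    (hv : ∀ i, v i ≠ 0) (hff : ∀ i, W.tr X (f i * f i) = v i)
    (hfo : ∀ i j, i ≠ j → W.tr X (f i * f j) = 0)
    {n : ℕ} {G : Matrix (Fin n) (Fin n) ℚ} (hG : G.det ≠ 0) {g : Fin n → W.H X}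
    (hg : ∀ i, IsOrth W X (Eq h) (g i))
    (hgs : ∀ x, IsOrth W X (Eq h) x → ∃ t : Fin n → W.K, x = ∑ i, t i • g i)
    (hgG : ∀ i j, W.tr X (g i * g j) = (G i j : W.K)) :
    n = a + r ∧ ∃ c : W.K, (G.det : W.K) * c ^ 2 =
      ((∏ i : Fin a, inum ops (d i.succ) (d i.succ) : ℚ) : W.K) * ∏ j, v j := by
  have hdet : (G.map (Rat.cast : ℚ → W.K)).det = (G.det : W.K) := by
    have := (RingHom.map_det (Rat.castHom W.K) G).symm
    exact this
  have hcomm : ∀ i (y : W.H X), W.cl X (d i) * y = y * W.cl X (d i) := fun i y =>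
    comm2 (W.cl_mem (hd.isCyc i)) y
  have hmem : ∀ x ∈ W.gr X 2, W.tr X (x * W.cl X h) = 0 → x ∈ primPart W X h := by
    intro x hx h0
    exact mem_primPart.2 ⟨hx, fun z hz => by rw [← hz]; exact h0⟩
  have key := det_gram (tform W X) (primPart W X h) g (fun i => mem_primPart.2 (hg i))
    (fun x hx => hgs x (mem_primPart.1 hx)) (G.map (Rat.cast : ℚ → W.K))
    (fun i j => by rw [tform_apply, hgG, Matrix.map_apply]) (by
      rw [hdet]; exact_mod_cast hG)
    (κ := Fin a ⊕ Fin r) (Sum.elim (fun i => W.cl X (d i.succ)) f) ?_ ?_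
    (Sum.elim (fun i => (inum ops (d i.succ) (d i.succ) : W.K)) v) ?_ ?_ ?_
  · rw [hdet, Fintype.card_sum, Fintype.card_fin, Fintype.card_fin] at key
    refine ⟨key.1, ?_⟩
    obtain ⟨c, hc⟩ := key.2
    refine ⟨c, ?_⟩
    rw [hc, Fintype.prod_sum_type, Rat.cast_prod]
    rfl
  · rintro (i | j)
    · apply hmem _ (W.cl_mem (hd.isCyc i.succ))
      change W.tr X (W.cl X (d i.succ) * W.cl X h) = 0
      rw [tr_div hX (hd.isCyc _) hi.isCyc, ← hd.zero, hd.orth _ _ (Fin.succ_ne_zero i),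
        Rat.cast_zero]
    · exact hmem _ (hf j).1 ((hf j).2 _ hi.isCyc)
  · intro x hx
    obtain ⟨c, t, ht, hxt, hc⟩ := hd.decomp hi hX hx.1
    obtain ⟨s, hs⟩ := hfs t ht
    have hc0 : c 0 = 0 := by
      have h1 := (isOrth_iff.1 (mem_primPart.1 hx)).2 h rfl
      rw [hc, hd.zero, h1, zero_div]
    refine ⟨Sum.elim (fun i => c i.succ) s, ?_⟩
    rw [Fintype.sum_sum_type, hxt, Fin.sum_univ_succ, hc0, zero_smul, zero_add, hs]
    rfl
  · rintro (i | j)
    · change (inum ops (d i.succ) (d i.succ) : W.K) ≠ 0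
      exact_mod_cast hd.ne i.succ
    · exact hv j
  · rintro (i | j)
    · exact tr_div hX (hd.isCyc _) (hd.isCyc _)
    · exact hff j
  · rintro (i | i) (j | j) hij
    · change W.tr X (W.cl X (d i.succ) * W.cl X (d j.succ)) = 0
      rw [tr_div hX (hd.isCyc _) (hd.isCyc _), hd.orth _ _ (fun h0 => hij (by
        rw [Fin.succ_injective _ h0])), Rat.cast_zero]
    · change W.tr X (W.cl X (d i.succ) * f j) = 0
      rw [hcomm]
      exact (hf j).2 _ (hd.isCyc _)
    · exact (hf i).2 _ (hd.isCyc _)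
    · exact hfo i j fun h0 => hij (by rw [h0])

end

end Pool.Agent.H934.SF
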