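import Pool.Agent.H934.SF.Pair

/-!
# Squares in all completions
-/

open CategoryTheory AlgebraicGeometry Module Matrix

universe u v

namespace Pool.Agent.H934.SF

open Pool.Agent.H914 Pool.Agent.H914.VarClass Pool.Agent.H914.VarClass.Obj
  Pool.Agent.H914.WeilCohomology Pool.Agent.H934.HS Pool.Agent.H934.Lift Pool.Agent.H934.PA

variable {k : Type u} [Field k] {𝒱 : VarClass k} {ops : CycleOps 𝒱}

section

variable {W : WeilCohomology.{u, v} ops} {X Y : 𝒱.Obj} {h : X.Cycles} {h' : Y.Cycles}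
    {a b : ℕ} {d : Fin (a + 1) → X.Cycles} {e : Fin (b + 1) → Y.Cycles}
    {z : (X.prod Y).Cycles}

theorem Ctx.squares (hC : Ctx W h h' d e z) (hsX : ScalarCorrespondences W X)
    (hrr : finrank W.K (transPart W X) = finrank W.K (transPart W Y)) (hq : inum ops z z ≠ 0)
    {n n' : ℕ} {G : Matrix (Fin n) (Fin n) ℚ} {G' : Matrix (Fin n') (Fin n') ℚ}
    (hG : G.det ≠ 0) (hG' : G'.det ≠ 0) {g : Fin n → W.H X} {g' : Fin n' → W.H Y}
    (hg : ∀ i, IsOrth W X (Eq h) (g i))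
    (hgs : ∀ x, IsOrth W X (Eq h) x → ∃ t : Fin n → W.K, x = ∑ i, t i • g i)
    (hgG : ∀ i j, W.tr X (g i * g j) = (G i j : W.K))
    (hg' : ∀ i, IsOrth W Y (Eq h') (g' i))
    (hgs' : ∀ x, IsOrth W Y (Eq h') x → ∃ t : Fin n' → W.K, x = ∑ i, t i • g' i)
    (hgG' : ∀ i j, W.tr Y (g' i * g' j) = (G' i j : W.K)) :
    n = a + finrank W.K (transPart W X) ∧ n' = b + finrank W.K (transPart W X) ∧
      finrank W.K (transPart W X) ≠ 0 ∧
      IsSquare (((G.det * G'.det * (∏ i : Fin a, inum ops (d i.succ) (d i.succ)) *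
        (∏ i : Fin b, inum ops (e i.succ) (e i.succ)) *
        (inum ops z z / (finrank W.K (transPart W X) : ℚ)) ^ finrank W.K (transPart W X) : ℚ)) :
          W.K) := by
  obtain ⟨s, hs0, hr0, hqs, hs, -, hsurj⟩ := hC.main hsX hq
  obtain ⟨f, hf, hfs, hff, hfo⟩ := hC.nX.exists_trans hC.iX hC.dimX
  obtain ⟨hn, c, hc⟩ := disc hC.nX hC.iX hC.dimX hf hfs hff (fun i => rfl) hfo hG hg hgs hgG
  have hT : ∀ i, W.corr (W.cl _ z) (f i) ∈ transPart W Y := fun i =>
    corr_trans hC.dimX hC.dimY hC.hz (hf i)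
  have hval : ∀ i j, W.tr Y (W.corr (W.cl _ z) (f i) * W.corr (W.cl _ z) (f j)) =
      s * W.tr X (f i * f j) := by
    intro i j
    rw [adj hC.hz, hs _ (hf j), mul_smul_comm, map_smul, smul_eq_mul]
  obtain ⟨hn', c', hc'⟩ := disc (v := fun i => s * W.tr X (f i * f i)) hC.nY hC.iY hC.dimY hT
    (fun y hy => by
      obtain ⟨x, hx, hxy⟩ := hsurj hrr y hy
      obtain ⟨t, htt⟩ := hfs x hx
      refine ⟨t, ?_⟩
      rw [← hxy, htt, map_sum]
      exact Finset.sum_congr rfl fun i _ => by rw [map_smul])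
    (fun i => mul_ne_zero hs0 (hff i)) (fun i => hval i i)
    (fun i j hij => by rw [hval, hfo i j hij, mul_zero]) hG' hg' hgs' hgG'
  refine ⟨hn, hn', hr0, ?_⟩
  rw [Finset.prod_mul_distrib, Finset.prod_const, Finset.card_univ, Fintype.card_fin] at hc'
  set V : W.K := ∏ i, W.tr X (f i * f i) with hV
  have hV0 : V ≠ 0 := Finset.prod_ne_zero_iff.2 fun i _ => hff i
  set r := finrank W.K (transPart W X) with hr
  have hrK : (r : W.K) ≠ 0 := by exact_mod_cast hr0
  have hsq : (inum ops z z : W.K) / (r : W.K) = s := by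
    rw [hqs, mul_div_cancel_left₀ _ hrK]
  have hG0 : (G.det : W.K) ≠ 0 := by exact_mod_cast hG
  have hG0' : (G'.det : W.K) ≠ 0 := by exact_mod_cast hG'
  have hU0 : ((∏ i : Fin a, inum ops (d i.succ) (d i.succ) : ℚ) : W.K) ≠ 0 := by
    exact_mod_cast Finset.prod_ne_zero_iff.2 fun (i : Fin a) _ => hC.nX.ne i.succ
  have hU0' : ((∏ i : Fin b, inum ops (e i.succ) (e i.succ) : ℚ) : W.K) ≠ 0 := by
    exact_mod_cast Finset.prod_ne_zero_iff.2 fun (i : Fin b) _ => hC.nY.ne i.succ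
  have hcc : c ≠ 0 := fun h0 => by
    rw [h0] at hc
    have : ((∏ i : Fin a, inum ops (d i.succ) (d i.succ) : ℚ) : W.K) * V = 0 := by
      rw [← hc]; ring
    exact mul_ne_zero hU0 hV0 this
  have hcc' : c' ≠ 0 := fun h0 => by
    rw [h0] at hc'
    have : ((∏ i : Fin b, inum ops (e i.succ) (e i.succ) : ℚ) : W.K) * (s ^ r * V) = 0 := by
      rw [← hc']; ring
    exact mul_ne_zero hU0' (mul_ne_zero (pow_ne_zero _ hs0) hV0) this
  rw [Rat.cast_mul, Rat.cast_mul, Rat.cast_mul, Rat.cast_mul, Rat.cast_pow, Rat.cast_div,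
    Rat.cast_natCast, hsq]
  generalize ((∏ i : Fin a, inum ops (d i.succ) (d i.succ) : ℚ) : W.K) = U at *
  generalize ((∏ i : Fin b, inum ops (e i.succ) (e i.succ) : ℚ) : W.K) = U' at *
  refine ⟨U * U' * s ^ r * V / (c * c'), ?_⟩
  have e1 : (G.det : W.K) = U * V / c ^ 2 := by
    rw [eq_div_iff (pow_ne_zero _ hcc)]
    exact hc
  have e2 : (G'.det : W.K) = U' * (s ^ r * V) / c' ^ 2 := by
    rw [eq_div_iff (pow_ne_zero _ hcc')]
    exact hc'
  rw [e1, e2]
  field_simp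

end

section

variable {W : WeilCohomology.{u, v} ops} {X : 𝒱.Obj} {h h' : X.Cycles}
    {a b : ℕ} {d : Fin (a + 1) → X.Cycles} {e : Fin (b + 1) → X.Cycles}
    {z : (X.prod X).Cycles}

/-- The diagonal. -/
noncomputable def dg (ops : CycleOps 𝒱) (X : 𝒱.Obj) : (X.prod X).Cycles :=
  ops.push (diag X) X.V.fundCycle

lemma dg_mem (hX : X.dim = 2) : (X.prod X).IsCyc 2 (dg ops X) :=
  ops.push_mem _ X.V.fundCycle_mem (by rw [dim_prod]; omega)

lemma corr_dg (x : W.H X) : W.corr (W.cl _ (dg ops X)) x = x := by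
  rw [dg, W.cl_push, corr_diag, W.cl_fund, one_mul]

/-- **The self-intersection number of a scalar correspondence.** -/
theorem Ctx.nonneg_self (hC : Ctx W h h' d e z) (hsX : ScalarCorrespondences W X) :
    0 ≤ inum ops z z := by
  obtain ⟨c, hc⟩ := scalar_corr hsX z hC.hz
  obtain ⟨c', hc'⟩ := scalar_corr hsX (tp ops z) (tp_mem hC.hz)
  have h1 := hC.selfint (s := c' * c) (fun x hx => by
    rw [hc x hx, map_smul, hc' x hx, smul_smul, mul_comm])
  obtain ⟨f, hf, hfs, hff, hfo⟩ := hC.nX.exists_trans hC.iX hC.dimX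
  by_cases hr : finrank W.K (transPart W X) = 0
  · rw [hr, Nat.cast_zero, zero_mul] at h1
    have h2 : inum ops z z = 0 := by exact_mod_cast h1
    exact h2.ge
  · let i : Fin (finrank W.K (transPart W X)) := ⟨0, Nat.pos_of_ne_zero hr⟩
    have h2 := adj (W := W) hC.hz (f i) (f i)
    rw [hc _ (hf i), hc' _ (hf i), smul_mul_assoc, mul_smul_comm, map_smul, map_smul,
      smul_eq_mul, smul_eq_mul] at h2
    have h5 : c = c' := mul_right_cancel₀ (hff i) h2
    subst h5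
    have h3 : (inum ops z (dg ops X) : W.K) = (finrank W.K (transPart W X) : W.K) * c := by
      rw [← tr_inum hC.dimX hC.dimY hC.hz (dg_mem hC.dimX)]
      have h4 : W.tr _ (W.cl _ z * W.cl _ (dg ops X)) = W.tr _ ((∑ j, (W.tr X (f j * f j))⁻¹ •
        (W.map (fst X X) (f j) * W.map (snd X X) (W.corr (W.cl _ z) (f j)))) *
          W.cl _ (dg ops X)) :=
        congrArg (fun t => W.tr _ (t * W.cl _ (dg ops X))) (hC.expand hf hfs hff hfo)
      rw [h4, Finset.sum_mul, map_sum]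
      have h6 : ∀ j, W.tr _ ((W.tr X (f j * f j))⁻¹ •
          (W.map (fst X X) (f j) * W.map (snd X X) (W.corr (W.cl _ z) (f j))) *
            W.cl _ (dg ops X)) = c := by
        intro j
        rw [smul_mul_assoc, map_smul, smul_eq_mul,
          ← W.even_comm (W.cl_mem (dg_mem (ops := ops) hC.dimX)), ← tr_corr, corr_dg, hc _ (hf j),
          mul_smul_comm, map_smul, smul_eq_mul, mul_comm c, inv_mul_cancel_left₀ (hff j)]
      simp only [h6, Finset.sum_const, Finset.card_univ, Fintype.card_fin, nsmul_eq_mul]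
    have hrQ : (0 : ℚ) < (finrank W.K (transPart W X) : ℚ) := by
      exact_mod_cast Nat.pos_of_ne_zero hr
    have h4 : inum ops z z * (finrank W.K (transPart W X) : ℚ) = inum ops z (dg ops X) ^ 2 := by
      have h7 : ((inum ops z z * (finrank W.K (transPart W X) : ℚ) : ℚ) : W.K) =
          ((inum ops z (dg ops X) ^ 2 : ℚ) : W.K) := by
        rw [Rat.cast_mul, Rat.cast_pow, Rat.cast_natCast, h1, h3]
        ring
      exact_mod_cast h7
    exact nonneg_of_mul_nonneg_left (h4 ▸ sq_nonneg _) hrQ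

end

lemma exists_prime (p : ℕ) : ∃ l : Nat.Primes, (l : ℕ) ≠ p := by
  by_cases h : p = 2
  · refine ⟨⟨3, Nat.prime_three⟩, ?_⟩
    rw [h]
    exact fun h' => absurd h' (by norm_num)
  · exact ⟨⟨2, Nat.prime_two⟩, fun h' => h h'.symm⟩

lemma sign_prod {a : ℕ} (t : Fin a → ℚ) (ht : ∀ i, t i < 0) : 0 < (-1 : ℚ) ^ a * ∏ i, t i := by
  have h1 : (-1 : ℚ) ^ a * ∏ i, t i = ∏ i, (-1 * t i) := by
    rw [Finset.prod_mul_distrib, Finset.prod_const, Finset.card_univ, Fintype.card_fin]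
  rw [h1]
  exact Finset.prod_pos fun i _ => by
    have := ht i
    linarith

section

variable {p : ℕ} {S : LadicSystem.{u, v} ops p}

/-- **The self-intersection numbers are nonnegative.** -/
theorem nonneg_of_odd {X Y : 𝒱.Obj} {h : X.Cycles} {h' : Y.Cycles}
    {a b : ℕ} {d : Fin (a + 1) → X.Cycles} {e : Fin (b + 1) → Y.Cycles}
    {z : (X.prod Y).Cycles} {n n' : ℕ} {G : Matrix (Fin n) (Fin n) ℚ}
    {G' : Matrix (Fin n') (Fin n') ℚ} (hs1 : 0 < (-1) ^ n * G.det) (hs2 : 0 < (-1) ^ n' * G'.det)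
    (hS : ∀ l : Nat.Primes, (l : ℕ) ≠ p → ScalarCorrespondences (S.W l) X ∧
      HasGram (S.W l) X h G ∧ HasGram (S.W l) Y h' G')
    (hC : ∀ l : Nat.Primes, (l : ℕ) ≠ p → Ctx (S.W l) h h' d e z)
    {l : Nat.Primes} (hl : (l : ℕ) ≠ p) (hrank : transRank (S.W l) X = transRank (S.W l) Y)
    (hodd : Odd (transRank (S.W l) X)) : 0 ≤ inum ops z z := by
  by_contra hlt
  have hneg : inum ops z z < 0 := not_le.1 hlt
  have hG0 : G.det ≠ 0 := fun h0 => by
    rw [h0, mul_zero] at hs1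
    exact lt_irrefl _ hs1
  have hG0' : G'.det ≠ 0 := fun h0 => by
    rw [h0, mul_zero] at hs2
    exact lt_irrefl _ hs2
  rw [transRank_eq, transRank_eq] at hrank
  rw [transRank_eq] at hodd
  -- the ranks are independent of the prime number
  have hranks : ∀ L : Nat.Primes, (L : ℕ) ≠ p →
      n = a + finrank (S.W L).K (transPart (S.W L) X) ∧
      n' = b + finrank (S.W L).K (transPart (S.W L) Y) := by
    intro L hL
    obtain ⟨-, ⟨g, hg, hgG, hgs⟩, g', hg', hgG', hgs'⟩ := hS L hL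
    obtain ⟨f, hf, hfs, hff, hfo⟩ := (hC L hL).nX.exists_trans (hC L hL).iX (hC L hL).dimX
    obtain ⟨f', hf', hfs', hff', hfo'⟩ := (hC L hL).nY.exists_trans (hC L hL).iY (hC L hL).dimY
    exact ⟨(disc (hC L hL).nX (hC L hL).iX (hC L hL).dimX hf hfs hff (fun i => rfl) hfo hG0
      hg (fun _ hx => gram_span hG0 hg hgG hgs hx) hgG).1,
      (disc (hC L hL).nY (hC L hL).iY (hC L hL).dimY hf' hfs' hff' (fun i => rfl) hfo' hG0'
      hg' (fun _ hx => gram_span hG0' hg' hgG' hgs' hx) hgG').1⟩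
  obtain ⟨hsX, ⟨g, hg, hgG, hgs⟩, g', hg', hgG', hgs'⟩ := hS l hl
  obtain ⟨hn, hn', hr0, -⟩ := (hC l hl).squares hsX hrank hneg.ne
    hG0 hG0' hg (fun _ hx => gram_span hG0 hg hgG hgs hx) hgG hg'
    (fun _ hx => gram_span hG0' hg' hgG' hgs' hx) hgG'
  set r := finrank (S.W l).K (transPart (S.W l) X) with hr
  set U : ℚ := ∏ i : Fin a, inum ops (d i.succ) (d i.succ) with hU
  set U' : ℚ := ∏ i : Fin b, inum ops (e i.succ) (e i.succ) with hU'
  have hs3 : 0 < (-1 : ℚ) ^ a * U := sign_prod _ (hC l hl).nX.neg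
  have hs4 : 0 < (-1 : ℚ) ^ b * U' := sign_prod _ (hC l hl).nY.neg
  have hrQ : (0 : ℚ) < (r : ℚ) := by exact_mod_cast Nat.pos_of_ne_zero hr0
  have hqr : inum ops z z / (r : ℚ) < 0 := div_neg_of_neg_of_pos hneg hrQ
  have hE : 0 < G.det * G'.det * U * U' := by
    have h1 := mul_pos (mul_pos hs1 hs2) (mul_pos hs3 hs4)
    have h2 : (-1 : ℚ) ^ n * G.det * ((-1) ^ n' * G'.det) * ((-1) ^ a * U * ((-1) ^ b * U')) =
        (-1) ^ (n + n' + (a + b)) * (G.det * G'.det * U * U') := by ring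
    have h3 : Even (n + n' + (a + b)) := ⟨a + b + r, by rw [hn, hn']; ring⟩
    rw [h2, h3.neg_one_pow, one_mul] at h1
    exact h1
  have hR0 : G.det * G'.det * U * U' * (inum ops z z / (r : ℚ)) ^ r < 0 :=
    mul_neg_of_pos_of_neg hE (hodd.pow_neg hqr)
  refine lt_asymm hR0 (pos_of_squares hR0.ne p fun l' hfact hlt' => ?_)
  let L : Nat.Primes := ⟨l', hfact.out⟩
  have hL : (L : ℕ) ≠ p := by
    change l' ≠ p
    omega
  have h1 := hranks l hl
  have h2 := hranks L hL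
  obtain ⟨hsX1, ⟨g1, hg1, hgG1, hgs1⟩, g1', hg1', hgG1', hgs1'⟩ := hS L hL
  obtain ⟨-, -, -, hsq⟩ := (hC L hL).squares hsX1 (by omega) hneg.ne
    hG0 hG0' hg1 (fun _ hx => gram_span hG0 hg1 hgG1 hgs1 hx) hgG1 hg1'
    (fun _ hx => gram_span hG0' hg1' hgG1' hgs1' hx) hgG1'
  have hrL : finrank (S.W L).K (transPart (S.W L) X) = r := by omega
  rw [hrL] at hsq
  obtain ⟨iso⟩ := S.iso L hL
  have h2 := hsq.map iso
  rw [map_ratCast] at h2
  exact h2

end

end Pool.Agent.H934.SF
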