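import Pool.Agent.H934.SF.Trans
import Pool.Agent.H934.SF.Core
import Pool.Agent.H934.SF.LinK

/-!
# Divisors and transcendental classes on a surface
-/

open CategoryTheory AlgebraicGeometry Module

universe u v

namespace Pool.Agent.H934.SF

open Pool.Agent.H914 Pool.Agent.H914.VarClass Pool.Agent.H914.VarClass.Obj
  Pool.Agent.H914.WeilCohomology Pool.Agent.H934.HS Pool.Agent.H934.Lift

variable {k : Type u} [Field k] {𝒱 : VarClass k} {ops : CycleOps 𝒱}

/-- An orthogonal basis of the divisors on the surface `X`, up to numerical equivalence. -/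
structure NSBasis (ops : CycleOps 𝒱) (X : 𝒱.Obj) (h : X.Cycles) {a : ℕ}
    (d : Fin (a + 1) → X.Cycles) : Prop where
  zero : d 0 = h
  isCyc : ∀ i, X.IsCyc 1 (d i)
  orth : ∀ i j, i ≠ j → inum ops (d i) (d j) = 0
  pos : 0 < inum ops h h
  neg : ∀ i : Fin a, inum ops (d i.succ) (d i.succ) < 0
  span : ∀ z, X.IsCyc 1 z → ∃ c : Fin (a + 1) → ℚ, ∀ w, X.IsCyc 1 w →
    inum ops z w = ∑ i, c i * inum ops (d i) w

variable {W : WeilCohomology.{u, v} ops} {X : 𝒱.Obj} {h : X.Cycles}

lemma nondeg' (hi : HodgeIndex W X h) (hX : X.dim = 2) {a : W.H X} (ha : a ∈ alg W X 1)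
    (h0 : ∀ b ∈ alg W X 1, qtr W X (a * b) = 0) : a = 0 := by
  apply hi.nondeg (by omega) ha
  intro b hb
  rw [hX]
  simpa using h0 b hb

lemma inum_div (hX : X.dim = 2) {z w : X.Cycles} (hz : X.IsCyc 1 z) (hw : X.IsCyc 1 w) :
    inum ops z w = qtr W X (W.cl X z * W.cl X w) := inum_eq (W := W) hz hw (by omega)

lemma tr_div (hX : X.dim = 2) {z w : X.Cycles} (hz : X.IsCyc 1 z) (hw : X.IsCyc 1 w) :
    W.tr X (W.cl X z * W.cl X w) = (inum ops z w : W.K) := by
  rw [inum_div (W := W) hX hz hw, cast_qtr]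
  rw [hX]
  exact alg_mul (cl_mem_alg hz) (cl_mem_alg hw)

/-- The intersection form on the cohomology. -/
noncomputable def tform (W : WeilCohomology.{u, v} ops) (X : 𝒱.Obj) :
    W.H X →ₗ[W.K] W.H X →ₗ[W.K] W.K :=
  (LinearMap.mul W.K (W.H X)).compr₂ (W.tr X)

lemma tform_apply (a b : W.H X) : tform W X a b = W.tr X (a * b) := rfl

lemma exists_ns (hi : HodgeIndex W X h) (hX : X.dim = 2) :
    ∃ (a : ℕ) (d : Fin (a + 1) → X.Cycles), NSBasis ops X h d := by
  classical
  have hF : Fact (1 ≤ X.dim) := ⟨by omega⟩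
  have hbot : ntDiv W X = ⊥ := by
    rw [eq_bot_iff]
    intro c hc
    rw [Submodule.mem_bot]
    apply Subtype.ext
    rw [mem_ntDiv, hX] at hc
    exact nondeg' hi hX c.2 hc
  have hfin : FiniteDimensional ℚ (alg W X 1) := by
    have h1 : Function.Injective (ntDiv W X).mkQ := by
      rw [← LinearMap.ker_eq_bot, Submodule.ker_mkQ, hbot]
    exact Module.Finite.of_injective _ h1
  let B : alg W X 1 →ₗ[ℚ] alg W X 1 →ₗ[ℚ] ℚ := (qf W X).domRestrict₁₂ (alg W X 1) (alg W X 1)
  have hB : ∀ x y : alg W X 1, B x y = qtr W X ((x : W.H X) * y) := fun _ _ => rfl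
  have hBs : ∀ x y, B x y = B y x := fun x y => by rw [hB, hB, alg_comm x.2]
  let η : alg W X 1 := ⟨W.cl X h, hi.mem⟩
  have hηpos : 0 < B η η := by
    have := hi.pos_qtr
    rw [hX, pow_two] at this
    exact this
  let L0 : Submodule ℚ (alg W X 1) := LinearMap.ker (B η)
  have hneg : ∀ x ∈ L0, x ≠ 0 → B x x < 0 := by
    intro x hx hx0
    have h2 : B η x = 0 := hx
    rw [hB] at h2
    have h1 := hi.neg (by omega) x.2 (by
      rw [hX]
      simpa using h2) (fun h0 => hx0 (Subtype.ext h0))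
    rw [hX] at h1
    rw [hB]
    simpa using h1
  obtain ⟨f, hf, hfs, hff, hfo⟩ := exists_orth B L0 (fun x _ y _ => hBs x y) (fun x hx hx0 => by
    by_contra hne
    exact (hneg x hx hne).ne (hx0 x hx))
  choose z hz hzf using fun i => (f i).2
  refine ⟨_, Fin.cons h z, rfl, Fin.cases hi.isCyc hz, ?_, ?_, fun i => ?_, fun w hw => ?_⟩
  · have h1 : ∀ i, inum ops h (z i) = 0 := fun i => by
      rw [inum_div (W := W) hX hi.isCyc (hz i), hzf]
      exact hf i
    have h2 : ∀ i, inum ops (z i) h = 0 := fun i => by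
      rw [inum_div (W := W) hX (hz i) hi.isCyc, alg_comm (cl_mem_alg (hz i)), hzf]
      exact hf i
    intro i j
    refine Fin.cases ?_ (fun i => ?_) i
    · refine Fin.cases (fun h0 => absurd rfl h0) (fun j _ => h1 j) j
    · refine Fin.cases (fun _ => h2 i) (fun j hij => ?_) j
      change inum ops (z i) (z j) = 0
      rw [inum_div (W := W) hX (hz i) (hz j), hzf, hzf]
      exact hfo i j fun h0 => hij (by rw [h0])
  · rw [inum_div (W := W) hX hi.isCyc hi.isCyc]
    exact hηpos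
  · change inum ops (z i) (z i) < 0
    rw [inum_div (W := W) hX (hz i) (hz i), hzf]
    refine hneg _ (hf i) fun h0 => hff i ?_
    rw [h0, map_zero]
  · let x : alg W X 1 := ⟨W.cl X w, cl_mem_alg hw⟩
    have h1 : x - (B η x / B η η) • η ∈ L0 := by
      rw [LinearMap.mem_ker, map_sub, map_smul, smul_eq_mul, div_mul_cancel₀ _ hηpos.ne', sub_self]
    obtain ⟨s, hs⟩ : ∃ s, s = B η x / B η η := ⟨_, rfl⟩
    rw [← hs] at h1
    obtain ⟨t, ht⟩ := hfs _ h1
    refine ⟨Fin.cons s t, fun v hv => ?_⟩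
    have h2 : x = s • η + ∑ i, t i • f i := by
      rw [← ht]; abel
    let y : alg W X 1 := ⟨W.cl X v, cl_mem_alg hv⟩
    have h3 : inum ops w v = B x y := inum_div (W := W) hX hw hv
    have h4 : B x y = s * B η y + ∑ i, t i * B (f i) y := by
      rw [h2, map_add, map_smul, map_sum, LinearMap.add_apply, LinearMap.smul_apply,
        LinearMap.sum_apply, smul_eq_mul]
      congr 1
      exact Finset.sum_congr rfl fun i _ => by rw [map_smul, LinearMap.smul_apply, smul_eq_mul]
    rw [h3, h4, Fin.sum_univ_succ]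
    simp only [Fin.cons_zero, Fin.cons_succ]
    congr 1
    · rw [inum_div (W := W) hX hi.isCyc hv]
      rfl
    · refine Finset.sum_congr rfl fun i _ => ?_
      rw [inum_div (W := W) hX (hz i) hv, hzf]
      rfl

section

variable {a : ℕ} {d : Fin (a + 1) → X.Cycles}

lemma NSBasis.ne (hd : NSBasis ops X h d) (i : Fin (a + 1)) : inum ops (d i) (d i) ≠ 0 := by
  refine Fin.cases ?_ (fun i => (hd.neg i).ne) i
  rw [hd.zero]
  exact hd.pos.ne'

/-- The class of a divisor in terms of the basis. -/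
lemma NSBasis.cl_eq (hd : NSBasis ops X h d) (hi : HodgeIndex W X h) (hX : X.dim = 2)
    {z : X.Cycles} (hz : X.IsCyc 1 z) : ∃ c : Fin (a + 1) → ℚ,
      W.cl X z = ∑ i, (c i : W.K) • W.cl X (d i) := by
  obtain ⟨c, hc⟩ := hd.span z hz
  refine ⟨c, ?_⟩
  have h1 : ∑ i, (c i : W.K) • W.cl X (d i) = ∑ i, c i • W.cl X (d i) :=
    Finset.sum_congr rfl fun i _ => by rw [rat_smul]
  rw [h1, ← sub_eq_zero]
  have h2 : ∑ i, c i • W.cl X (d i) ∈ alg W X 1 :=
    Submodule.sum_mem _ fun i _ => Submodule.smul_mem _ _ (cl_mem_alg (hd.isCyc i))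
  refine nondeg' hi hX (sub_mem (cl_mem_alg hz) h2) ?_
  rintro _ ⟨w, hw, rfl⟩
  rw [sub_mul, map_sub, ← inum_div (W := W) hX hz hw, hc w hw, Finset.sum_mul, map_sum, sub_eq_zero]
  refine Finset.sum_congr rfl fun i _ => ?_
  rw [inum_div (W := W) hX (hd.isCyc i) hw, rat_smul, smul_mul_assoc, ← rat_smul, map_smul,
    smul_eq_mul]

/-- An element of `H^2` orthogonal to the basis is transcendental. -/
lemma NSBasis.mem_trans (hd : NSBasis ops X h d) (hi : HodgeIndex W X h) (hX : X.dim = 2)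
    {x : W.H X} (hx : x ∈ W.gr X 2) (h0 : ∀ i, W.tr X (x * W.cl X (d i)) = 0) :
    x ∈ transPart W X := by
  refine ⟨hx, fun z hz => ?_⟩
  obtain ⟨c, hc⟩ := hd.cl_eq hi hX hz
  rw [hc, Finset.mul_sum, map_sum]
  exact Finset.sum_eq_zero fun i _ => by rw [mul_smul_comm, map_smul, h0, smul_zero]

/-- The decomposition of `H^2`. -/
lemma NSBasis.decomp (hd : NSBasis ops X h d) (hi : HodgeIndex W X h) (hX : X.dim = 2)
    {x : W.H X} (hx : x ∈ W.gr X 2) : ∃ (c : Fin (a + 1) → W.K), ∃ t ∈ transPart W X,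
      x = ∑ i, c i • W.cl X (d i) + t ∧
        ∀ i, c i = W.tr X (x * W.cl X (d i)) / (inum ops (d i) (d i) : W.K) := by
  have hne : ∀ i, (inum ops (d i) (d i) : W.K) ≠ 0 := fun i => by
    exact_mod_cast hd.ne i
  refine ⟨fun i => W.tr X (x * W.cl X (d i)) / (inum ops (d i) (d i) : W.K),
    x - ∑ i, (W.tr X (x * W.cl X (d i)) / (inum ops (d i) (d i) : W.K)) • W.cl X (d i), ?_, by abel,
    fun i => rfl⟩
  refine hd.mem_trans hi hX (sub_mem hx (Submodule.sum_mem _ fun i _ =>
    Submodule.smul_mem _ _ (gr_of_alg (cl_mem_alg (hd.isCyc i))))) fun j => ?_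
  rw [sub_mul, map_sub, Finset.sum_mul, map_sum, Finset.sum_eq_single j]
  · rw [smul_mul_assoc, map_smul, tr_div hX (hd.isCyc j) (hd.isCyc j), smul_eq_mul,
      div_mul_cancel₀ _ (hne j), sub_self]
  · intro i _ hij
    rw [smul_mul_assoc, map_smul, tr_div hX (hd.isCyc i) (hd.isCyc j), hd.orth i j hij,
      Rat.cast_zero, smul_zero]
  · intro hj; exact absurd (Finset.mem_univ j) hj

lemma comm2 {x : W.H X} (hx : x ∈ W.gr X 2) (y : W.H X) : x * y = y * x :=
  W.even_comm (p := 1) hx y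

/-- The form on the transcendental part is nondegenerate. -/
lemma NSBasis.trans_nondeg (hd : NSBasis ops X h d) (hi : HodgeIndex W X h) (hX : X.dim = 2)
    {x : W.H X} (hx : x ∈ transPart W X) (h0 : ∀ y ∈ transPart W X, W.tr X (x * y) = 0) :
    x = 0 := by
  apply W.nondeg
  intro b
  refine gr_induction (W.isInternal X) (p := fun b => W.tr X (x * b) = 0) ?_ ?_ b
  · intro i b hb
    by_cases hi2 : i = 2
    · subst hi2
      obtain ⟨c, t, ht, hbt, -⟩ := hd.decomp hi hX hb
      rw [hbt, mul_add, map_add, h0 t ht, add_zero, Finset.mul_sum, map_sum]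
      exact Finset.sum_eq_zero fun i _ => by
        rw [mul_smul_comm, map_smul, hx.2 _ (hd.isCyc i), smul_zero]
    · exact W.tr_eq_zero (W.mul_mem hx.1 hb) (by omega)
  · intro b c hb hc
    rw [mul_add, map_add, hb, hc, add_zero]

/-- An orthogonal basis of the transcendental part. -/
lemma NSBasis.exists_trans (hd : NSBasis ops X h d) (hi : HodgeIndex W X h) (hX : X.dim = 2) :
    ∃ f : Fin (finrank W.K (transPart W X)) → W.H X, (∀ i, f i ∈ transPart W X) ∧
      (∀ x ∈ transPart W X, ∃ t : Fin (finrank W.K (transPart W X)) → W.K, x = ∑ i, t i • f i) ∧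
      (∀ i, W.tr X (f i * f i) ≠ 0) ∧ ∀ i j, i ≠ j → W.tr X (f i * f j) = 0 := by
  have hfin : FiniteDimensional W.K (W.H X) := (W.isPoincareAlgebra X).finite
  exact exists_orth (tform W X) (transPart W X)
    (fun x hx y _ => by rw [tform_apply, tform_apply, comm2 hx.1])
    (fun x hx h0 => hd.trans_nondeg hi hX hx h0)

end

end Pool.Agent.H934.SF
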