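import Pool.Agent.H934.SF.PDefs
import Pool.Agent.H934.PA.Defs2

/-!
# The transcendental part as a subspace
-/

open CategoryTheory AlgebraicGeometry

universe u v

namespace Pool.Agent.H934.SF

open Pool.Agent.H914 Pool.Agent.H914.VarClass Pool.Agent.H914.VarClass.Obj
  Pool.Agent.H914.WeilCohomology Pool.Agent.H934.HS Pool.Agent.H934.Lift

variable {k : Type u} [Field k] {𝒱 : VarClass k} {ops : CycleOps 𝒱}

lemma isOrth_iff {W : WeilCohomology.{u, v} ops} {X : 𝒱.Obj} {P : X.Cycles → Prop} {a : W.H X} :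
    IsOrth W X P a ↔ a ∈ W.gr X 2 ∧ ∀ z, P z → W.tr X (a * W.cl X z) = 0 := Iff.rfl

/-- The transcendental part as a subspace. -/
noncomputable def transPart (W : WeilCohomology.{u, v} ops) (X : 𝒱.Obj) :
    Submodule W.K (W.H X) where
  carrier := {a | a ∈ W.gr X 2 ∧ ∀ z, X.IsCyc 1 z → W.tr X (a * W.cl X z) = 0}
  add_mem' := by
    rintro a b ⟨ha, ha'⟩ ⟨hb, hb'⟩
    refine ⟨add_mem ha hb, fun z hz => ?_⟩
    rw [add_mul, map_add, ha' z hz, hb' z hz, add_zero]
  zero_mem' := ⟨zero_mem _, fun z _ => by rw [zero_mul, map_zero]⟩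
  smul_mem' := by
    rintro q a ⟨ha, ha'⟩
    refine ⟨Submodule.smul_mem _ q ha, fun z hz => ?_⟩
    rw [smul_mul_assoc, map_smul, ha' z hz, smul_zero]

lemma mem_transPart {W : WeilCohomology.{u, v} ops} {X : 𝒱.Obj} {a : W.H X} :
    a ∈ transPart W X ↔ IsTransClass W X a := Iff.rfl

lemma transRank_eq (W : WeilCohomology.{u, v} ops) (X : 𝒱.Obj) :
    transRank W X = Module.finrank W.K (transPart W X) := by
  have h1 : ({a | IsTransClass W X a} : Set (W.H X)) = (transPart W X : Set (W.H X)) := rfl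
  rw [transRank, Set.finrank, h1, Submodule.span_eq]

end Pool.Agent.H934.SF
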